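import Pool.Agent.H66.OD3.Slc

/-!
Removing a block (upper bound, part 4).
-/

namespace Pool.Agent.H66.OD3

open Finset

variable {n : ℕ} {V : ℕ → Finset (Sym2 (Fin n))} {b w D N : ℕ}
  {P : Set ((SimpleGraph (Fin n) → Prop) × ℕ)}

theorem Blk_le {G H : SimpleGraph (Fin n)} {e : Sym2 (Fin n)}
    (h : H.edgeSet = insert e G.edgeSet) : G ≤ H := by
  rw [← SimpleGraph.edgeSet_subset_edgeSet, h]
  exact Set.subset_insert _ _

theorem Blk_congr {B : Finset (Sym2 (Fin n))} {G H : SimpleGraph (Fin n)}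
    (h : ∀ e ∈ B, e ∈ G.edgeSet ↔ e ∈ H.edgeSet) : cnt B G = cnt B H := by
  classical
  unfold cnt
  refine congrArg Finset.card (Finset.ext fun x => ?_)
  simp only [Finset.mem_filter]
  exact and_congr_right (h x)

theorem Blk_cnt {B : Finset (Sym2 (Fin n))} {G H : SimpleGraph (Fin n)} (h : G ≤ H)
    (he : ∀ e ∈ B, e ∈ H.edgeSet → e ∈ G.edgeSet) : cnt B G = cnt B H :=
  Blk_congr fun x hx => ⟨fun h1 => SimpleGraph.edgeSet_subset_edgeSet.2 h h1, he x hx⟩

theorem blk {g : SimpleGraph (Fin n) → Prop} (hg : ∀ G H, G ≤ H → g G → g H)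
    (h : UC V b w D N P) {M a : ℕ} {A B : Finset (Sym2 (Fin n))} (hBA : B ⊆ A)
    (hBV : V (a + 1) = B) (hBw : B.card ≤ w) (hM : ∀ G, cnt A G ≤ M) (ha : a + 1 ≤ D)
    (hP : ∀ j ≤ M, (rest A j g, a) ∈ P) :
    UC V b w D (N + (M + 1) * (M + 3)) (P ∪ {p | ∃ j ≤ M, p = (rest (A \ B) j g, a + 1)}) := by
  classical
  obtain ⟨E, hE⟩ : ∃ E : ℕ → SimpleGraph (Fin n) → Prop, E = fun b' G => cnt B G = b' := ⟨_, rfl⟩
  obtain ⟨X, hX⟩ : ∃ X : ℕ → ℕ → SimpleGraph (Fin n) → Prop,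
      X = fun j b' G => cnt B G = b' ∧ rest A (j + b') g G := ⟨_, rfl⟩
  -- step 1
  have h1 := h.image (range (M + 1)) (fun b' => (E b', a + 1)) (by
    intro b' _
    refine ⟨?_, ha, Or.inl ⟨B, hBw, fun G H hGH => ?_⟩⟩
    · intro G H _ _ hGH he h2
      have he' : ∀ e ∈ V (a + 1), e ∈ H.edgeSet → e ∈ G.edgeSet := he
      rw [hBV] at he'
      show E b' H
      have h2' : E b' G := h2
      rw [hE] at h2' ⊢
      exact (Blk_cnt hGH he').symm.trans h2'
    · rw [hE]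
      show cnt B G = b' ↔ cnt B H = b'
      rw [Blk_congr hGH])
  obtain ⟨P1, hP1⟩ : ∃ P1, P1 = P ∪ (fun b' => (E b', a + 1)) '' (range (M + 1) : Set ℕ) := ⟨_, rfl⟩
  rw [← hP1] at h1
  have hPP1 : P ⊆ P1 := by
    rw [hP1]
    exact Set.subset_union_left
  have hE1 : ∀ b' ≤ M, (E b', a + 1) ∈ P1 := by
    intro b' hb'
    rw [hP1]
    exact Or.inr ⟨b', Finset.mem_coe.2 (Finset.mem_range.2 (by omega)), rfl⟩
  -- step 2
  obtain ⟨I, hI⟩ : ∃ I : Finset (ℕ × ℕ), I = (range (M + 1) ×ˢ range (M + 1)).filter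
      (fun x => x.1 + x.2 ≤ M) := ⟨_, rfl⟩
  have hIc : I.card ≤ (M + 1) * (M + 1) := by
    rw [hI]
    refine (Finset.card_filter_le _ _).trans ?_
    rw [Finset.card_product, Finset.card_range]
  have h2 := h1.image I (fun x => (X x.1 x.2, a + 1)) (by
    rintro ⟨j, b'⟩ hx
    rw [hI, Finset.mem_filter] at hx
    have hjb : j + b' ≤ M := hx.2
    refine ⟨?_, ha, Or.inr ⟨{(E b', a + 1), (rest A (j + b') g, a)}, ?_, ?_, Or.inl ?_⟩⟩
    · intro G H _ _ hGH he h2
      have he' : ∀ e ∈ V (a + 1), e ∈ H.edgeSet → e ∈ G.edgeSet := he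
      rw [hBV] at he'
      show X j b' H
      have h2' : X j b' G := h2
      rw [hX] at h2' ⊢
      exact ⟨(Blk_cnt hGH he').symm.trans h2'.1, rest_mono A _ hg G H hGH h2'.2⟩
    · rintro q (rfl | rfl)
      · exact hE1 b' (by omega)
      · exact hPP1 (hP _ hjb)
    · rintro q (rfl | rfl)
      · exact le_refl _
      · exact Nat.le_succ _
    · intro G
      rw [hX]
      constructor
      · rintro ⟨h3, h4⟩ q (rfl | rfl)
        · rw [hE]
          exact h3
        · exact h4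
      · intro h3
        refine ⟨?_, h3 _ (Or.inr rfl)⟩
        have h4 := h3 _ (Or.inl rfl)
        rw [hE] at h4
        exact h4)
  obtain ⟨P2, hP2⟩ : ∃ P2, P2 = P1 ∪ (fun x : ℕ × ℕ => (X x.1 x.2, a + 1)) '' (I : Set (ℕ × ℕ)) :=
    ⟨_, rfl⟩
  rw [← hP2] at h2
  have hPP2 : P ⊆ P2 := by
    rw [hP2]
    exact hPP1.trans Set.subset_union_left
  have hX2 : ∀ j b', j + b' ≤ M → (X j b', a + 1) ∈ P2 := by
    intro j b' hjb
    rw [hP2]
    refine Or.inr ⟨(j, b'), ?_, rfl⟩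
    rw [hI, Finset.mem_coe, Finset.mem_filter, Finset.mem_product, Finset.mem_range,
      Finset.mem_range]
    exact ⟨⟨by omega, by omega⟩, hjb⟩
  -- step 3
  have h3 := h2.image (range (M + 1)) (fun j => (rest (A \ B) j g, a + 1)) (by
    intro j _
    refine ⟨mono_outside (rest_mono _ _ hg), ha,
      Or.inr ⟨{q | ∃ b', j + b' ≤ M ∧ q = (X j b', a + 1)}, ?_, ?_, Or.inr ?_⟩⟩
    · rintro q ⟨b', hb', rfl⟩
      exact hX2 j b' hb'
    · rintro q ⟨b', hb', rfl⟩
      exact le_refl _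
    · intro G
      have hsd := cnt_sdiff hBA G
      have hMG := hM G
      constructor
      · intro h4
        have h5 : j + cnt B G ≤ M ∧ rest A (j + cnt B G) g G := by
          rcases h4 with h4 | ⟨h4, h6⟩
          · exact ⟨by omega, Or.inl (by omega)⟩
          · exact ⟨by omega, Or.inr ⟨by omega, h6⟩⟩
        refine ⟨(X j (cnt B G), a + 1), ⟨_, h5.1, rfl⟩, ?_⟩
        rw [hX]
        exact ⟨rfl, h5.2⟩
      · rintro ⟨q, ⟨b', hb', rfl⟩, h4⟩
        rw [hX] at h4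
        obtain ⟨h5, h6⟩ := h4
        rcases h6 with h6 | ⟨h6, h7⟩
        · exact Or.inl (by omega)
        · exact Or.inr ⟨by omega, h7⟩)
  refine h3.mono ?_ ?_
  · rw [Finset.card_range]
    have h4 : (M + 1) * (M + 3) = (M + 1) + (M + 1) * (M + 1) + (M + 1) := by ring
    omega
  · rintro p (hp | ⟨j, hj, rfl⟩)
    · exact Or.inl (hPP2 hp)
    · exact Or.inr ⟨j, Finset.mem_coe.2 (Finset.mem_range.2 (by omega)), rfl⟩

/-- The blocks. -/
theorem exists_blocks (n w : ℕ) : ∃ V A : ℕ → Finset (Sym2 (Fin n)), A 0 = nd n ∧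
    (∀ a, (V a).card ≤ w) ∧ ∀ a, V (a + 1) ⊆ A a ∧ A (a + 1) = A a \ V (a + 1) ∧
      (A a).card ≤ (nd n).card - a * w := by
  classical
  have hpick : ∀ A : Finset (Sym2 (Fin n)), ∃ B ⊆ A, B.card = min w A.card := fun A =>
    Finset.exists_subset_card_eq (min_le_right _ _)
  choose pk hpk1 hpk2 using hpick
  let A : ℕ → Finset (Sym2 (Fin n)) := fun a => Nat.rec (nd n) (fun _ B => B \ pk B) a
  have hA0 : A 0 = nd n := rfl
  have hA1 : ∀ a, A (a + 1) = A a \ pk (A a) := fun a => rfl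
  let V : ℕ → Finset (Sym2 (Fin n)) := fun a => Nat.rec ∅ (fun a _ => pk (A a)) a
  have hV0 : V 0 = ∅ := rfl
  have hV1 : ∀ a, V (a + 1) = pk (A a) := fun a => rfl
  refine ⟨V, A, hA0, ?_, ?_⟩
  · intro a
    rcases a with _ | a
    · rw [hV0]
      exact Nat.zero_le _
    · rw [hV1, hpk2]
      exact min_le_left _ _
  · intro a
    refine ⟨by rw [hV1]; exact hpk1 _, by rw [hV1], ?_⟩
    induction a with
    | zero => rw [hA0, zero_mul]; exact le_refl _
    | succ a ih =>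
      rw [hA1, Finset.card_sdiff_of_subset (hpk1 _), hpk2, Nat.succ_mul]
      rcases le_total w (A a).card with h3 | h3
      · rw [min_eq_left h3]
        omega
      · rw [min_eq_right h3]
        omega

theorem blks {g : SimpleGraph (Fin n) → Prop} (hg : ∀ G H, G ≤ H → g G → g H)
    (h : UC V b w D N P) {M : ℕ} (hM : n.choose 2 ≤ M)
    (hP : ∀ j ≤ M, (rest (nd n) j g, 0) ∈ P) {A : ℕ → Finset (Sym2 (Fin n))} (hA0 : A 0 = nd n)
    (hV : ∀ a, (V a).card ≤ w) (hA : ∀ a, V (a + 1) ⊆ A a ∧ A (a + 1) = A a \ V (a + 1))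
    (a : ℕ) (ha : a ≤ D) :
    UC V b w D (N + a * ((M + 1) * (M + 3))) (P ∪ {p | ∃ j ≤ M, p = (rest (A a) j g, a)}) := by
  classical
  induction a with
  | zero =>
    refine h.mono ?_ ?_
    · rw [zero_mul]
      exact le_refl _
    · rw [hA0]
      rintro p (hp | ⟨j, hj, rfl⟩)
      · exact hp
      · exact hP j hj
  | succ a ih =>
    have h1 := ih (by omega)
    have h2 := blk hg h1 (hA a).1 rfl (hV _) (fun G => (cnt_le (A a) G).trans hM) ha
      (fun j hj => Or.inr ⟨j, hj, rfl⟩)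
    rw [← (hA a).2] at h2
    refine h2.mono ?_ ?_
    · refine le_of_eq ?_
      ring
    · rintro p (hp | hp)
      · exact Or.inl (Or.inl hp)
      · exact Or.inr hp

end Pool.Agent.H66.OD3
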