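import Mathlib

/-!
Functions of finite sets which are monotone outside a set.
-/

namespace Pool.Agent.H66.OD3

open Finset

set_option linter.unusedSectionVars false

variable {E : Type} [Fintype E] [DecidableEq E]

/-- Adding an element outside `T` preserves `F`. -/
def MonOff (T : Finset E) (F : Finset E → Prop) : Prop :=
  ∀ z, ∀ e ∉ T, F z → F (insert e z)

theorem MonOff.le {T : Finset E} {F : Finset E → Prop} (h : MonOff T F) {z z' : Finset E}
    (hz : z ⊆ z') (hT : ∀ e ∈ z', e ∉ z → e ∉ T) (hF : F z) : F z' := by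
  have key : ∀ A : Finset E, (∀ e ∈ A, e ∉ T) → F (A ∪ z) := by
    intro A
    induction A using Finset.induction_on with
    | empty =>
      intro _
      rwa [Finset.empty_union]
    | insert a A _ ih =>
      intro hA
      rw [Finset.insert_union]
      exact h _ a (hA a (Finset.mem_insert_self a A))
        (ih fun e he => hA e (Finset.mem_insert_of_mem he))
  have h1 := key (z' \ z) fun e he =>
    hT e (Finset.mem_sdiff.1 he).1 (Finset.mem_sdiff.1 he).2
  rwa [Finset.sdiff_union_of_subset hz] at h1

theorem MonOff.mono {T T' : Finset E} {F : Finset E → Prop} (h : MonOff T F) (hT : T ⊆ T') :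
    MonOff T' F := fun z e he => h z e fun h' => he (hT h')

variable {ι : Type} {S Y : Finset E} {F : Finset E → Prop} {f : ι → Finset E → Prop}
  {T : ι → Finset E}

/-- AND gates. -/
theorem conv_and (hF : MonOff S F) {J K : Finset ι}
    (hK : ∀ j ∈ K, MonOff (T j) (f j))
    (h : ∀ z, F z ↔ (∀ j ∈ J, f j z) ∧ ∀ j ∈ K, ¬ f j z) (z : Finset E) :
    F ((z \ S) ∪ Y) ↔
      (∀ j ∈ J, ∀ Y' ⊆ T j \ S, (∃ e ∈ (T j \ S) \ Y', e ∈ z) ∨
        f j ((z \ (S ∪ T j)) ∪ (Y ∪ Y'))) ∧
      (∀ j ∈ K, ∀ Y' ⊆ T j \ S, (∃ e ∈ (T j \ S) \ Y', e ∈ z) ∨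
        ¬ f j ((univ \ (S ∪ T j)) ∪ (Y ∪ Y'))) := by
  constructor
  · intro h1
    constructor
    · intro j hj Y' hY'
      by_cases hc : ∃ e ∈ (T j \ S) \ Y', e ∈ z
      · exact Or.inl hc
      · right
        push Not at hc
        have h2 : F ((z \ (S ∪ T j)) ∪ (Y ∪ Y')) := by
          refine hF.le ?_ ?_ h1
          · intro e he
            rcases Finset.mem_union.1 he with he | he
            · obtain ⟨h3, h4⟩ := Finset.mem_sdiff.1 he
              by_cases h5 : e ∈ T j
              · have h6 : e ∈ T j \ S := Finset.mem_sdiff.2 ⟨h5, h4⟩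
                by_cases h7 : e ∈ Y'
                · exact Finset.mem_union_right _ (Finset.mem_union_right _ h7)
                · exact absurd h3 (hc e (Finset.mem_sdiff.2 ⟨h6, h7⟩))
              · refine Finset.mem_union_left _ (Finset.mem_sdiff.2 ⟨h3, ?_⟩)
                rw [Finset.mem_union]
                tauto
            · exact Finset.mem_union_right _ (Finset.mem_union_left _ he)
          · intro e he hne hS
            rw [Finset.mem_union, not_or, Finset.mem_sdiff] at hne
            rcases Finset.mem_union.1 he with he | he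
            · exact (Finset.mem_sdiff.1 he).2 (Finset.mem_union_left _ hS)
            · rcases Finset.mem_union.1 he with he | he
              · exact hne.2 he
              · exact (Finset.mem_sdiff.1 (hY' he)).2 hS
        exact ((h _).1 h2).1 j hj
    · intro j hj Y' hY'
      by_cases hc : ∃ e ∈ (T j \ S) \ Y', e ∈ z
      · exact Or.inl hc
      · right
        push Not at hc
        have h2 : F ((univ \ (S ∪ T j)) ∪ (Y ∪ Y')) := by
          refine hF.le ?_ ?_ h1
          · intro e he
            rcases Finset.mem_union.1 he with he | he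
            · obtain ⟨h3, h4⟩ := Finset.mem_sdiff.1 he
              by_cases h5 : e ∈ T j
              · have h6 : e ∈ T j \ S := Finset.mem_sdiff.2 ⟨h5, h4⟩
                by_cases h7 : e ∈ Y'
                · exact Finset.mem_union_right _ (Finset.mem_union_right _ h7)
                · exact absurd h3 (hc e (Finset.mem_sdiff.2 ⟨h6, h7⟩))
              · refine Finset.mem_union_left _ (Finset.mem_sdiff.2 ⟨Finset.mem_univ _, ?_⟩)
                rw [Finset.mem_union]
                tauto
            · exact Finset.mem_union_right _ (Finset.mem_union_left _ he)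
          · intro e he hne hS
            rw [Finset.mem_union, not_or, Finset.mem_sdiff] at hne
            rcases Finset.mem_union.1 he with he | he
            · exact (Finset.mem_sdiff.1 he).2 (Finset.mem_union_left _ hS)
            · rcases Finset.mem_union.1 he with he | he
              · exact hne.2 he
              · exact (Finset.mem_sdiff.1 (hY' he)).2 hS
        exact ((h _).1 h2).2 j hj
  · rintro ⟨h1, h2⟩
    rw [h]
    have hno : ∀ j, ¬ ∃ e ∈ (T j \ S) \ (z ∩ (T j \ S)), e ∈ z := by
      rintro j ⟨e, he, hz⟩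
      obtain ⟨h3, h4⟩ := Finset.mem_sdiff.1 he
      exact h4 (Finset.mem_inter.2 ⟨hz, h3⟩)
    constructor
    · intro j hj
      have h3 := (h1 j hj (z ∩ (T j \ S)) Finset.inter_subset_right).resolve_left (hno j)
      have e1 : (z \ (S ∪ T j)) ∪ (Y ∪ (z ∩ (T j \ S))) = (z \ S) ∪ Y := by
        ext e
        simp only [Finset.mem_union, Finset.mem_sdiff, Finset.mem_inter]
        tauto
      rwa [e1] at h3
    · intro j hj h4
      have h3 := (h2 j hj (z ∩ (T j \ S)) Finset.inter_subset_right).resolve_left (hno j)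
      refine h3 ((hK j hj).le ?_ ?_ h4)
      · intro e
        simp only [Finset.mem_union, Finset.mem_sdiff, Finset.mem_inter, Finset.mem_univ, true_and]
        tauto
      · intro e
        simp only [Finset.mem_union, Finset.mem_sdiff, Finset.mem_inter, Finset.mem_univ, true_and]
        tauto

/-- OR gates. -/
theorem conv_or (hF : MonOff S F) {J K : Finset ι}
    (hK : ∀ j ∈ K, MonOff (T j) (f j))
    (h : ∀ z, F z ↔ (∃ j ∈ J, f j z) ∨ ∃ j ∈ K, ¬ f j z) (z : Finset E) :
    F ((z \ S) ∪ Y) ↔
      (∃ j ∈ J, ∃ Y' ⊆ T j \ S, (∀ e ∈ Y', e ∈ z) ∧ f j ((z \ (S ∪ T j)) ∪ (Y ∪ Y'))) ∨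
      (∃ j ∈ K, ∃ Y' ⊆ T j \ S, (∀ e ∈ Y', e ∈ z) ∧ ¬ f j (Y ∪ Y')) := by
  constructor
  · intro h1
    rcases (h _).1 h1 with ⟨j, hj, h2⟩ | ⟨j, hj, h2⟩
    · refine Or.inl ⟨j, hj, z ∩ (T j \ S), Finset.inter_subset_right,
        fun e he => (Finset.mem_inter.1 he).1, ?_⟩
      have e1 : (z \ (S ∪ T j)) ∪ (Y ∪ (z ∩ (T j \ S))) = (z \ S) ∪ Y := by
        ext e
        simp only [Finset.mem_union, Finset.mem_sdiff, Finset.mem_inter]
        tauto
      rwa [e1]
    · refine Or.inr ⟨j, hj, z ∩ (T j \ S), Finset.inter_subset_right,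
        fun e he => (Finset.mem_inter.1 he).1, fun h3 => h2 ((hK j hj).le ?_ ?_ h3)⟩
      · intro e
        simp only [Finset.mem_union, Finset.mem_sdiff, Finset.mem_inter]
        tauto
      · intro e
        simp only [Finset.mem_union, Finset.mem_sdiff, Finset.mem_inter]
        tauto
  · rintro (⟨j, hj, Y', hY', hz, h1⟩ | ⟨j, hj, Y', hY', hz, h1⟩)
    · refine hF.le ?_ ?_ ((h _).2 (Or.inl ⟨j, hj, h1⟩))
      · intro e he
        rcases Finset.mem_union.1 he with he | he
        · obtain ⟨h3, h4⟩ := Finset.mem_sdiff.1 he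
          exact Finset.mem_union_left _ (Finset.mem_sdiff.2
            ⟨h3, fun h5 => h4 (Finset.mem_union_left _ h5)⟩)
        · rcases Finset.mem_union.1 he with he | he
          · exact Finset.mem_union_right _ he
          · exact Finset.mem_union_left _ (Finset.mem_sdiff.2
              ⟨hz e he, (Finset.mem_sdiff.1 (hY' he)).2⟩)
      · intro e he hne hS
        rcases Finset.mem_union.1 he with he | he
        · exact (Finset.mem_sdiff.1 he).2 hS
        · exact hne (Finset.mem_union_right _ (Finset.mem_union_left _ he))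
    · refine hF.le ?_ ?_ ((h _).2 (Or.inr ⟨j, hj, h1⟩))
      · intro e he
        rcases Finset.mem_union.1 he with he | he
        · exact Finset.mem_union_right _ he
        · exact Finset.mem_union_left _ (Finset.mem_sdiff.2
            ⟨hz e he, (Finset.mem_sdiff.1 (hY' he)).2⟩)
      · intro e he hne hS
        rcases Finset.mem_union.1 he with he | he
        · exact (Finset.mem_sdiff.1 he).2 hS
        · exact hne (Finset.mem_union_left _ he)

/-- Tests. -/
theorem conv_test (hF : MonOff S F) {K : Finset E}
    (hK : ∀ z z' : Finset E, z ∩ K = z' ∩ K → (F z ↔ F z')) (z : Finset E) :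
    F ((z \ S) ∪ Y) ↔ ∃ Y' ⊆ K \ S, (∀ e ∈ Y', e ∈ z) ∧ F (Y ∪ Y') := by
  constructor
  · intro h1
    refine ⟨z ∩ (K \ S), Finset.inter_subset_right, fun e he => (Finset.mem_inter.1 he).1,
      (hK _ _ ?_).1 h1⟩
    ext e
    simp only [Finset.mem_union, Finset.mem_sdiff, Finset.mem_inter]
    tauto
  · rintro ⟨Y', hY', hz, h1⟩
    refine hF.le ?_ ?_ h1
    · intro e he
      rcases Finset.mem_union.1 he with he | he
      · exact Finset.mem_union_right _ he
      · exact Finset.mem_union_left _ (Finset.mem_sdiff.2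
          ⟨hz e he, (Finset.mem_sdiff.1 (hY' he)).2⟩)
    · intro e he hne hS
      rcases Finset.mem_union.1 he with he | he
      · exact (Finset.mem_sdiff.1 he).2 hS
      · exact hne (Finset.mem_union_left _ he)

end Pool.Agent.H66.OD3
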