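import Pool.Agent.H66.OD3.Mcl
import Pool.Agent.H66.OD3.Conv

/-!
Conversion of the circuits into monotone programs.
-/

namespace Pool.Agent.H66.OD3

open Finset

set_option linter.unusedSectionVars false

variable {V E : Type} [Fintype E] [DecidableEq E]

/-- Gates of circuits for functions of finite sets. -/
def LGate (c : ℕ) (T : ℕ → Finset E) (lev : ℕ → ℕ) (f : ℕ → Finset E → Prop) (i : ℕ) : Prop :=
  (∃ K : Finset E, K.card ≤ c ∧ ∀ z z' : Finset E, z ∩ K = z' ∩ K → (f i z ↔ f i z')) ∨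
  (∃ J K : Finset ℕ, (∀ j ∈ J, j < i ∧ (lev j < lev i ∨ (lev j = lev i ∧ T j = T i))) ∧
    (∀ j ∈ K, j < i) ∧
    ((∀ z, f i z ↔ (∀ j ∈ J, f j z) ∧ ∀ j ∈ K, ¬ f j z) ∨
     (∀ z, f i z ↔ (∃ j ∈ J, f j z) ∨ ∃ j ∈ K, ¬ f j z)))

open Classical in
/-- The elements of `E` which are edges. -/
noncomputable def zz (ends : E → V × V) (x : SimpleGraph V) : Finset E :=
  univ.filter fun e => x.Adj (ends e).1 (ends e).2

/-- The bound for the number of fixed elements. -/
def bud (c D : ℕ) (lev : ℕ → ℕ) (i : ℕ) : ℕ := c * (D + 1 - lev i)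

/-- The functions of the states. -/
def stf (ends : E → V × V) (f : ℕ → Finset E → Prop) (i : ℕ) (S Y : Finset E) :
    SimpleGraph V → Prop := fun x => f i ((zz ends x \ S) ∪ Y)

variable {ends : E → V × V} {f : ℕ → Finset E → Prop} {T : ℕ → Finset E} {lev : ℕ → ℕ}
  {c D s : ℕ}

/-- The functions of the states of the first gates. -/
def Pst (ends : E → V × V) (f : ℕ → Finset E → Prop) (T : ℕ → Finset E) (lev : ℕ → ℕ)
    (c D t : ℕ) : Set (SimpleGraph V → Prop) :=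
  {g | ∃ i < t, ∃ S Y, T i ⊆ S ∧ S.card ≤ bud c D lev i ∧ Y ⊆ S ∧ g = stf ends f i S Y}

/-- The edge tests. -/
def Lit (ends : E → V × V) : Set (SimpleGraph V → Prop) :=
  {g | ∃ e, g = fun x => e ∈ zz ends x}

theorem bud_le (i : ℕ) : bud c D lev i ≤ c * (D + 1) := by
  unfold bud
  exact Nat.mul_le_mul_left _ (by omega)

theorem bud_step {i j : ℕ} (hi : lev i ≤ D) (hj : (T j).card ≤ c)
    (h : lev j < lev i ∨ (lev j = lev i ∧ T j = T i)) {S : Finset E} (hT : T i ⊆ S)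
    (hS : S.card ≤ bud c D lev i) : (S ∪ T j).card ≤ bud c D lev j := by
  unfold bud at hS ⊢
  rcases h with h | ⟨h1, h2⟩
  · refine (Finset.card_union_le _ _).trans ?_
    have e : c * (D + 1 - lev i) + c = c * (D + 1 - lev i + 1) := by ring
    calc S.card + (T j).card ≤ c * (D + 1 - lev i) + c := Nat.add_le_add hS hj
      _ = c * (D + 1 - lev i + 1) := e
      _ ≤ c * (D + 1 - lev j) := Nat.mul_le_mul_left _ (by omega)
  · rw [h2, Finset.union_eq_left.2 hT, h1]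
    exact hS

/-- The intermediate functions. -/
def Mid (ends : E → V × V) (q : ℕ) (P : Set (SimpleGraph V → Prop)) :
    Set (SimpleGraph V → Prop) :=
  {g | ∃ A : Finset E, A.card ≤ q ∧
    ((g = fun x => ∃ e ∈ A, e ∈ zz ends x) ∨ (g = fun x => ∀ e ∈ A, e ∈ zz ends x) ∨
      ∃ h ∈ P, (g = fun x => (∃ e ∈ A, e ∈ zz ends x) ∨ h x) ∨
        (g = fun x => (∀ e ∈ A, e ∈ zz ends x) ∧ h x))}

theorem simp_state (hT : ∀ i < s, MonOff (T i) (f i)) (hc : ∀ i < s, (T i).card ≤ c)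
    (hlev : ∀ i < s, lev i ≤ D) {i : ℕ} (hi : i < s) (hg : LGate c T lev f i)
    {S Y : Finset E} (hS : T i ⊆ S) (hSc : S.card ≤ bud c D lev i) (hY : Y ⊆ S) :
    Simp (Mid ends (c * (D + 1)) (Pst ends f T lev c D i)) (stf ends f i S Y) := by
  classical
  have hF : MonOff S (f i) := (hT i hi).mono hS
  have hq : c ≤ c * (D + 1) := Nat.le_mul_of_pos_right _ (by omega)
  rcases hg with ⟨K, hK, hKz⟩ | ⟨J, K, hJ, hK, hg | hg⟩
  · -- test
    refine Or.inr (Or.inr ⟨{g | ∃ Y' ⊆ K \ S, f i (Y ∪ Y') ∧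
      g = fun x => ∀ e ∈ Y', e ∈ zz ends x}, ?_, fun x => ?_⟩)
    · rintro g ⟨Y', hY', _, rfl⟩
      refine ⟨Y', ?_, Or.inr (Or.inl rfl)⟩
      exact ((Finset.card_le_card (hY'.trans Finset.sdiff_subset)).trans hK).trans hq
    · show f i ((zz ends x \ S) ∪ Y) ↔ _
      rw [conv_test hF hKz]
      constructor
      · rintro ⟨Y', h1, h2, h3⟩
        exact ⟨_, ⟨Y', h1, h3, rfl⟩, h2⟩
      · rintro ⟨g, ⟨Y', h1, h3, rfl⟩, h2⟩
        exact ⟨Y', h1, h2, h3⟩
  · -- AND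
    refine Or.inr (Or.inl ⟨{g | (∃ j ∈ J, ∃ Y' ⊆ T j \ S, g = fun x =>
        (∃ e ∈ (T j \ S) \ Y', e ∈ zz ends x) ∨ stf ends f j (S ∪ T j) (Y ∪ Y') x) ∨
      (∃ j ∈ K, ∃ Y' ⊆ T j \ S, f j ((univ \ (S ∪ T j)) ∪ (Y ∪ Y')) ∧
        g = fun x => ∃ e ∈ (T j \ S) \ Y', e ∈ zz ends x)}, ?_, fun x => ?_⟩)
    · rintro g (⟨j, hj, Y', hY', rfl⟩ | ⟨j, hj, Y', hY', _, rfl⟩)
      · obtain ⟨h1, h2⟩ := hJ j hj
        have hjs := h1.trans hi
        refine ⟨(T j \ S) \ Y', ?_, Or.inr (Or.inr ⟨stf ends f j (S ∪ T j) (Y ∪ Y'), ?_,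
          Or.inl rfl⟩)⟩
        · exact ((Finset.card_le_card (Finset.sdiff_subset.trans Finset.sdiff_subset)).trans
            (hc j hjs)).trans hq
        · refine ⟨j, h1, S ∪ T j, Y ∪ Y', Finset.subset_union_right,
            bud_step (hlev i hi) (hc j hjs) h2 hS hSc, ?_, rfl⟩
          exact Finset.union_subset_union hY (hY'.trans Finset.sdiff_subset)
      · have hjs := (hK j hj).trans hi
        refine ⟨(T j \ S) \ Y', ?_, Or.inl rfl⟩
        exact ((Finset.card_le_card (Finset.sdiff_subset.trans Finset.sdiff_subset)).trans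
            (hc j hjs)).trans hq
    · show f i ((zz ends x \ S) ∪ Y) ↔ _
      rw [conv_and hF (fun j hj => hT j ((hK j hj).trans hi)) hg]
      constructor
      · rintro ⟨h1, h2⟩ g (⟨j, hj, Y', hY', rfl⟩ | ⟨j, hj, Y', hY', hf, rfl⟩)
        · exact h1 j hj Y' hY'
        · exact (h2 j hj Y' hY').resolve_right fun h => h hf
      · intro h
        constructor
        · intro j hj Y' hY'
          exact h _ (Or.inl ⟨j, hj, Y', hY', rfl⟩)
        · intro j hj Y' hY'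
          by_cases hf : f j ((univ \ (S ∪ T j)) ∪ (Y ∪ Y'))
          · exact Or.inl (h _ (Or.inr ⟨j, hj, Y', hY', hf, rfl⟩))
          · exact Or.inr hf
  · -- OR
    refine Or.inr (Or.inr ⟨{g | (∃ j ∈ J, ∃ Y' ⊆ T j \ S, g = fun x =>
        (∀ e ∈ Y', e ∈ zz ends x) ∧ stf ends f j (S ∪ T j) (Y ∪ Y') x) ∨
      (∃ j ∈ K, ∃ Y' ⊆ T j \ S, ¬ f j (Y ∪ Y') ∧
        g = fun x => ∀ e ∈ Y', e ∈ zz ends x)}, ?_, fun x => ?_⟩)
    · rintro g (⟨j, hj, Y', hY', rfl⟩ | ⟨j, hj, Y', hY', _, rfl⟩)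
      · obtain ⟨h1, h2⟩ := hJ j hj
        have hjs := h1.trans hi
        refine ⟨Y', ?_, Or.inr (Or.inr ⟨stf ends f j (S ∪ T j) (Y ∪ Y'), ?_, Or.inr rfl⟩)⟩
        · exact ((Finset.card_le_card (hY'.trans Finset.sdiff_subset)).trans (hc j hjs)).trans hq
        · refine ⟨j, h1, S ∪ T j, Y ∪ Y', Finset.subset_union_right,
            bud_step (hlev i hi) (hc j hjs) h2 hS hSc, ?_, rfl⟩
          exact Finset.union_subset_union hY (hY'.trans Finset.sdiff_subset)
      · have hjs := (hK j hj).trans hi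
        refine ⟨Y', ?_, Or.inr (Or.inl rfl)⟩
        exact ((Finset.card_le_card (hY'.trans Finset.sdiff_subset)).trans (hc j hjs)).trans hq
    · show f i ((zz ends x \ S) ∪ Y) ↔ _
      rw [conv_or hF (fun j hj => hT j ((hK j hj).trans hi)) hg]
      constructor
      · rintro (⟨j, hj, Y', hY', h1, h2⟩ | ⟨j, hj, Y', hY', h1, h2⟩)
        · exact ⟨_, Or.inl ⟨j, hj, Y', hY', rfl⟩, h1, h2⟩
        · exact ⟨_, Or.inr ⟨j, hj, Y', hY', h2, rfl⟩, h1⟩
      · rintro ⟨g, ⟨j, hj, Y', hY', rfl⟩ | ⟨j, hj, Y', hY', h2, rfl⟩, h1⟩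
        · exact Or.inl ⟨j, hj, Y', hY', h1.1, h1.2⟩
        · exact Or.inr ⟨j, hj, Y', hY', h1, h2⟩

theorem MC.mid {N q M R : ℕ} {P : Set (SimpleGraph V → Prop)} {B : Finset (SimpleGraph V → Prop)}
    (h : MC N (Lit ends ∪ P)) (hM : (univ.filter fun S : Finset E => S.card ≤ q).card ≤ M)
    (hB : (P : Set (SimpleGraph V → Prop)) = B) (hR : B.card ≤ R) :
    MC (N + (M + M + M * R + M * R)) (Lit ends ∪ P ∪ Mid ends q P) := by
  classical
  set 𝒮 := univ.filter fun S : Finset E => S.card ≤ q with h𝒮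
  have hlitset : ∀ A : Finset E, {g : SimpleGraph V → Prop | ∃ e ∈ A, g = fun x => e ∈ zz ends x}
      ⊆ Lit ends ∪ P := by
    rintro A g ⟨e, _, rfl⟩
    exact Or.inl ⟨e, rfl⟩
  have h1 := h.image 𝒮 (fun A => fun x => ∃ e ∈ A, e ∈ zz ends x) (by
    intro A _
    refine Or.inr (Or.inr ⟨_, hlitset A, fun x => ?_⟩)
    constructor
    · rintro ⟨e, he, hx⟩
      exact ⟨_, ⟨e, he, rfl⟩, hx⟩
    · rintro ⟨g, ⟨e, he, rfl⟩, hx⟩
      exact ⟨e, he, hx⟩)
  have h2 := h1.image 𝒮 (fun A => fun x => ∀ e ∈ A, e ∈ zz ends x) (by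
    intro A _
    refine Simp.mono (P := Lit ends ∪ P) Set.subset_union_left
      (Or.inr (Or.inl ⟨_, hlitset A, fun x => ?_⟩))
    constructor
    · rintro hx g ⟨e, he, rfl⟩
      exact hx e he
    · intro hx e he
      exact hx _ ⟨e, he, rfl⟩)
  have h3 := h2.image (𝒮 ×ˢ B) (fun p => fun x => (∃ e ∈ p.1, e ∈ zz ends x) ∨ p.2 x) (by
    rintro ⟨A, g⟩ hp
    have hg : g ∈ P := by
      rw [hB]
      exact (Finset.mem_product.1 hp).2
    refine Simp.mono (P := Lit ends ∪ P) (Set.subset_union_left.trans Set.subset_union_left)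
      (Or.inr (Or.inr ⟨{g' : SimpleGraph V → Prop | ∃ e ∈ A, g' = fun x => e ∈ zz ends x} ∪
      {g}, ?_, fun x => ?_⟩))
    · rintro g' (hg' | hg')
      · exact hlitset A hg'
      · rw [Set.mem_singleton_iff.1 hg']
        exact Or.inr hg
    · constructor
      · rintro (⟨e, he, hx⟩ | hx)
        · exact ⟨_, Or.inl ⟨e, he, rfl⟩, hx⟩
        · exact ⟨g, Or.inr rfl, hx⟩
      · rintro ⟨g', ⟨e, he, rfl⟩ | hg', hx⟩
        · exact Or.inl ⟨e, he, hx⟩
        · rw [Set.mem_singleton_iff.1 hg'] at hx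
          exact Or.inr hx)
  have h4 := h3.image (𝒮 ×ˢ B) (fun p => fun x => (∀ e ∈ p.1, e ∈ zz ends x) ∧ p.2 x) (by
    rintro ⟨A, g⟩ hp
    have hg : g ∈ P := by
      rw [hB]
      exact (Finset.mem_product.1 hp).2
    refine Simp.mono (P := Lit ends ∪ P)
      ((Set.subset_union_left.trans Set.subset_union_left).trans Set.subset_union_left)
      (Or.inr (Or.inl ⟨{g' : SimpleGraph V → Prop | ∃ e ∈ A, g' = fun x => e ∈ zz ends x} ∪
      {g}, ?_, fun x => ?_⟩))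
    · rintro g' (hg' | hg')
      · exact hlitset A hg'
      · rw [Set.mem_singleton_iff.1 hg']
        exact Or.inr hg
    · constructor
      · rintro ⟨h1, h2⟩ g' (⟨e, he, rfl⟩ | hg')
        · exact h1 e he
        · rw [Set.mem_singleton_iff.1 hg']
          exact h2
      · intro hx
        exact ⟨fun e he => hx _ (Or.inl ⟨e, he, rfl⟩), hx g (Or.inr rfl)⟩)
  refine h4.mono ?_ ?_
  · rw [Finset.card_product]
    have : 𝒮.card * B.card ≤ M * R := Nat.mul_le_mul hM hR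
    omega
  · rintro g (hg | ⟨A, hA, rfl | rfl | ⟨h', hh', rfl | rfl⟩⟩)
    · exact Or.inl (Or.inl (Or.inl (Or.inl hg)))
    · exact Or.inl (Or.inl (Or.inl (Or.inr ⟨A, Finset.mem_coe.2 (Finset.mem_filter.2
        ⟨Finset.mem_univ _, hA⟩), rfl⟩)))
    · exact Or.inl (Or.inl (Or.inr ⟨A, Finset.mem_coe.2 (Finset.mem_filter.2
        ⟨Finset.mem_univ _, hA⟩), rfl⟩))
    · refine Or.inl (Or.inr ⟨(A, h'), Finset.mem_coe.2 (Finset.mem_product.2
        ⟨Finset.mem_filter.2 ⟨Finset.mem_univ _, hA⟩, ?_⟩), rfl⟩)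
      rw [hB] at hh'
      exact hh'
    · refine Or.inr ⟨(A, h'), Finset.mem_coe.2 (Finset.mem_product.2
        ⟨Finset.mem_filter.2 ⟨Finset.mem_univ _, hA⟩, ?_⟩), rfl⟩
      rw [hB] at hh'
      exact hh'

/-- The number of functions of the states. -/
theorem pst_finite {M t : ℕ}
    (hM : (univ.filter fun S : Finset E => S.card ≤ c * (D + 1)).card ≤ M) :
    ∃ B : Finset (SimpleGraph V → Prop), Pst ends f T lev c D t = B ∧ B.card ≤ t * (M * M) := by
  classical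
  set 𝒮 := univ.filter fun S : Finset E => S.card ≤ c * (D + 1) with h𝒮
  let I : Finset (ℕ × Finset E × Finset E) := (range t ×ˢ (𝒮 ×ˢ 𝒮)).filter
    fun p => T p.1 ⊆ p.2.1 ∧ p.2.1.card ≤ bud c D lev p.1 ∧ p.2.2 ⊆ p.2.1
  refine ⟨I.image fun p => stf ends f p.1 p.2.1 p.2.2, ?_, ?_⟩
  · ext g
    rw [Finset.mem_coe, Finset.mem_image]
    constructor
    · rintro ⟨i, hi, S, Y, h1, h2, h3, rfl⟩
      have h4 : S.card ≤ c * (D + 1) := h2.trans (bud_le i)
      refine ⟨(i, S, Y), Finset.mem_filter.2 ⟨Finset.mem_product.2 ⟨Finset.mem_range.2 hi,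
        Finset.mem_product.2 ⟨Finset.mem_filter.2 ⟨Finset.mem_univ _, h4⟩,
          Finset.mem_filter.2 ⟨Finset.mem_univ _, (Finset.card_le_card h3).trans h4⟩⟩⟩,
        h1, h2, h3⟩, rfl⟩
    · rintro ⟨⟨i, S, Y⟩, hp, rfl⟩
      obtain ⟨h1, h2⟩ := Finset.mem_filter.1 hp
      exact ⟨i, Finset.mem_range.1 (Finset.mem_product.1 h1).1, S, Y, h2.1, h2.2.1, h2.2.2, rfl⟩
  · refine Finset.card_image_le.trans ((Finset.card_filter_le _ _).trans ?_)
    rw [Finset.card_product, Finset.card_product, Finset.card_range]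
    exact Nat.mul_le_mul_left _ (Nat.mul_le_mul hM hM)

theorem build (hT : ∀ i < s, MonOff (T i) (f i)) (hc : ∀ i < s, (T i).card ≤ c)
    (hlev : ∀ i < s, lev i ≤ D) (hg : ∀ i < s, LGate c T lev f i) {M : ℕ}
    (hM : (univ.filter fun S : Finset E => S.card ≤ c * (D + 1)).card ≤ M) (t : ℕ) (ht : t ≤ s) :
    MC (Fintype.card E + t * (M + M + M * (s * (M * M)) + M * (s * (M * M)) + M * M))
      (Lit ends ∪ Pst ends f T lev c D t) := by
  classical
  induction t with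
  | zero =>
    have h := (MC.empty : MC 0 (∅ : Set (SimpleGraph V → Prop))).image (univ : Finset E)
      (fun e => fun x => e ∈ zz ends x) (by
        intro e _
        refine Or.inl ⟨(ends e).1, (ends e).2, fun x => ?_⟩
        unfold zz
        simp)
    refine h.mono (by rw [Finset.card_univ]; omega) ?_
    rintro g (⟨e, rfl⟩ | ⟨i, hi, _⟩)
    · exact Or.inr ⟨e, by simp, rfl⟩
    · exact absurd hi (by omega)
  | succ t ih =>
    have h1 := ih (by omega)
    obtain ⟨B, hB, hBc⟩ := pst_finite (ends := ends) (f := f) (T := T) (lev := lev) (t := t) hM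
    have h2 := h1.mid (R := s * (M * M)) hM hB
      (hBc.trans (Nat.mul_le_mul_right _ (by omega)))
    set 𝒮 := univ.filter fun S : Finset E => S.card ≤ c * (D + 1) with h𝒮
    have h3 := h2.image ((𝒮 ×ˢ 𝒮).filter fun p => T t ⊆ p.1 ∧ p.1.card ≤ bud c D lev t ∧
      p.2 ⊆ p.1) (fun p => stf ends f t p.1 p.2) (by
        rintro ⟨S, Y⟩ hp
        obtain ⟨_, e1, e2, e3⟩ := Finset.mem_filter.1 hp
        exact (simp_state hT hc hlev (by omega) (hg t (by omega)) e1 e2 e3).mono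
          Set.subset_union_right)
    refine h3.mono ?_ ?_
    · have h4 : ((𝒮 ×ˢ 𝒮).filter fun p => T t ⊆ p.1 ∧ p.1.card ≤ bud c D lev t ∧
          p.2 ⊆ p.1).card ≤ M * M := by
        refine (Finset.card_filter_le _ _).trans ?_
        rw [Finset.card_product]
        exact Nat.mul_le_mul hM hM
      rw [Nat.succ_mul]
      omega
    · rintro g (hg' | ⟨i, hi, S, Y, e1, e2, e3, rfl⟩)
      · exact Or.inl (Or.inl (Or.inl hg'))
      · rcases Nat.lt_succ_iff_lt_or_eq.1 hi with hlt | rfl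
        · exact Or.inl (Or.inl (Or.inr ⟨i, hlt, S, Y, e1, e2, e3, rfl⟩))
        · have e4 : S.card ≤ c * (D + 1) := e2.trans (bud_le i)
          refine Or.inr ⟨(S, Y), Finset.mem_coe.2 (Finset.mem_filter.2 ⟨Finset.mem_product.2
            ⟨Finset.mem_filter.2 ⟨Finset.mem_univ _, e4⟩,
              Finset.mem_filter.2 ⟨Finset.mem_univ _, (Finset.card_le_card e3).trans e4⟩⟩,
            e1, e2, e3⟩), rfl⟩

/-- The program for a monotone gate. -/
theorem build_out (hT : ∀ i < s, MonOff (T i) (f i)) (hc : ∀ i < s, (T i).card ≤ c)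
    (hlev : ∀ i < s, lev i ≤ D) (hg : ∀ i < s, LGate c T lev f i) {M : ℕ}
    (hM : (univ.filter fun S : Finset E => S.card ≤ c * (D + 1)).card ≤ M) {o : ℕ} (ho : o < s)
    (hmono : MonOff ∅ (f o)) :
    ∃ P : Set (SimpleGraph V → Prop), (fun x => f o (zz ends x)) ∈ P ∧
      MC (Fintype.card E + (s + 1) * (M + M + M * (s * (M * M)) + M * (s * (M * M)) + M * M))
        P := by
  classical
  have h1 := build (ends := ends) hT hc hlev hg hM s (le_refl s)
  obtain ⟨B, hB, hBc⟩ := pst_finite (ends := ends) (f := f) (T := T) (lev := lev) (t := s) hM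
  have h2 := h1.mid (R := s * (M * M)) hM hB hBc
  have h3 := h2.add (g := fun x => f o (zz ends x)) (by
    refine Or.inr (Or.inr ⟨{g | ∃ Y ⊆ T o, g = fun x =>
      (∀ e ∈ Y, e ∈ zz ends x) ∧ stf ends f o (T o) Y x}, ?_, fun x => ?_⟩)
    · rintro g ⟨Y, hY, rfl⟩
      refine Or.inr ⟨Y, ?_, Or.inr (Or.inr ⟨stf ends f o (T o) Y,
        ⟨o, ho, T o, Y, le_refl _, ?_, hY, rfl⟩, Or.inr rfl⟩)⟩
      · exact ((Finset.card_le_card hY).trans (hc o ho)).trans
          (Nat.le_mul_of_pos_right _ (by omega))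
      · have := hlev o ho
        exact (hc o ho).trans (Nat.le_mul_of_pos_right _ (by omega))
    · constructor
      · intro hx
        refine ⟨_, ⟨zz ends x ∩ T o, Finset.inter_subset_right, rfl⟩,
          fun e he => (Finset.mem_inter.1 he).1, ?_⟩
        show f o ((zz ends x \ T o) ∪ (zz ends x ∩ T o))
        rw [Finset.sdiff_union_inter]
        exact hx
      · rintro ⟨g, ⟨Y, hY, rfl⟩, h4, h5⟩
        refine hmono.le ?_ (fun e _ _ => Finset.notMem_empty e) h5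
        exact Finset.union_subset Finset.sdiff_subset h4)
  refine ⟨_, Set.mem_insert _ _, h3.mono ?_ (le_refl _)⟩
  have hM1 : 1 ≤ M := by
    refine le_trans (Finset.card_pos.2 ⟨∅, ?_⟩) hM
    simp
  have hMM : 1 ≤ M * M := Nat.mul_le_mul hM1 hM1
  rw [Nat.succ_mul]
  omega

end Pool.Agent.H66.OD3
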