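import Mathlib

/-!
# Circuits whose gates are monotone up to few variables
-/

namespace Pool.Agent.H66.OD3

/-- Adding edges outside `V` preserves the property `f`, on the graphs with `a` to `b` edges. -/
def MonoOutside {n : ℕ} (a b : ℕ) (V : Finset (Sym2 (Fin n)))
    (f : SimpleGraph (Fin n) → Prop) : Prop :=
  ∀ G H : SimpleGraph (Fin n), a ≤ G.edgeSet.ncard → H.edgeSet.ncard ≤ b → G ≤ H →
    (∀ e ∈ V, e ∈ H.edgeSet → e ∈ G.edgeSet) → f G → f H

/-- Gate number `i` of the sequence `f` of graph properties: a test (any function of the adjacency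
of at most `r` pairs), or an AND or an OR, of any fan-in, of the earlier gates `j ∈ J` and of the
negations of the earlier gates `j ∈ K`, with `Wire j i` for `j ∈ J`. -/
def Gate {n : ℕ} (r : ℕ) (Wire : ℕ → ℕ → Prop) (f : ℕ → SimpleGraph (Fin n) → Prop)
    (i : ℕ) : Prop :=
  (∃ R : Finset (Sym2 (Fin n)), R.card ≤ r ∧ ∀ G H : SimpleGraph (Fin n),
    (∀ e ∈ R, e ∈ G.edgeSet ↔ e ∈ H.edgeSet) → (f i G ↔ f i H)) ∨
  (∃ J K : Finset ℕ, (∀ j ∈ J, j < i ∧ Wire j i) ∧ (∀ j ∈ K, j < i) ∧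
    ((∀ G, f i G ↔ (∀ j ∈ J, f j G) ∧ ∀ j ∈ K, ¬ f j G) ∨
     (∀ G, f i G ↔ (∃ j ∈ J, f j G) ∨ ∃ j ∈ K, ¬ f j G)))

/-- The first `s` members of `f` are the gates of a circuit whose tests read at most `w` pairs,
gate `i` is monotone outside a set `V i` of at most `w` pairs (on graphs with `a` to `b` edges),
and this set changes at most `q` times along every path of wires without negation: a level
`lev i ≤ q` drops whenever it changes. -/
def AlmostMonotone {n : ℕ} (a b w q s : ℕ) (f : ℕ → SimpleGraph (Fin n) → Prop) : Prop :=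
  ∃ (V : ℕ → Finset (Sym2 (Fin n))) (lev : ℕ → ℕ), ∀ i < s,
    (V i).card ≤ w ∧ MonoOutside a b (V i) (f i) ∧ lev i ≤ q ∧
      Gate w (fun j i => lev j < lev i ∨ (lev j = lev i ∧ V j = V i)) f i

end Pool.Agent.H66.OD3
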