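import Mathlib

/-!
Choice of the places of the hidden pairs.
-/

namespace Pool.Agent.H66.OD3

open Finset

theorem exists_place {E R X ι : Type} [Fintype E] [DecidableEq E] [Fintype R] [Nonempty R]
    [DecidableEq X] (hid : E → R → X)
    (hinj : ∀ e r e' r', hid e r = hid e' r' → e = e' ∧ r = r')
    (A : Finset ι) (Q : ι → Finset X) {w q : ℕ} (hQ : ∀ i ∈ A, (Q i).card ≤ w)
    (hw : 2 * w ≤ Fintype.card R) (hA : A.card ≤ 2 ^ q) :
    ∃ ρ : E → R, ∀ i ∈ A, (univ.filter fun e => hid e (ρ e) ∈ Q i).card ≤ q := by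
  classical
  by_contra hcon
  push Not at hcon
  rcases A.eq_empty_or_nonempty with rfl | hne
  · obtain ⟨i, hi, _⟩ := hcon fun _ => Classical.arbitrary R
    exact absurd hi (Finset.notMem_empty i)
  set K := Fintype.card R with hK
  have hKpos : 0 < K := Fintype.card_pos
  have hKr : (0 : ℝ) < K := by exact_mod_cast hKpos
  -- the weight of a choice
  let g : ι → E → R → ℝ := fun i e r => if hid e r ∈ Q i then 2 else 1
  have hpow : ∀ (i : ι) (ρ : E → R),
      ∏ e, g i e (ρ e) = 2 ^ (univ.filter fun e => hid e (ρ e) ∈ Q i).card := by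
    intro i ρ
    show ∏ e, (if hid e (ρ e) ∈ Q i then (2 : ℝ) else 1) = _
    rw [Finset.prod_ite, Finset.prod_const, Finset.prod_const_one, mul_one]
  have hg : ∀ i e, ∑ r, g i e r = K + (univ.filter fun r => hid e r ∈ Q i).card := by
    intro i e
    show ∑ r, (if hid e r ∈ Q i then (2 : ℝ) else 1) = _
    have h1 : ∀ r, (if hid e r ∈ Q i then (2 : ℝ) else 1) =
        1 + if hid e r ∈ Q i then (1 : ℝ) else 0 := by
      intro r
      by_cases h : hid e r ∈ Q i
      · rw [if_pos h, if_pos h]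
        norm_num
      · rw [if_neg h, if_neg h]
        norm_num
    rw [Finset.sum_congr rfl fun r _ => h1 r, Finset.sum_add_distrib, Finset.sum_const,
      Finset.card_univ, nsmul_eq_mul, mul_one, Finset.sum_boole]
  have hsum : ∀ i ∈ A, ∑ e : E, ((univ.filter fun r => hid e r ∈ Q i).card : ℝ) ≤ w := by
    intro i hi
    have h1 : ∑ e : E, (univ.filter fun r => hid e r ∈ Q i).card ≤ (Q i).card := by
      rw [← Finset.card_sigma]
      refine Finset.card_le_card_of_injOn (fun q : (_ : E) × R => hid q.1 q.2) ?_ ?_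
      · intro q hq
        exact (Finset.mem_filter.1 (Finset.mem_sigma.1 hq).2).2
      · rintro ⟨e, r⟩ _ ⟨e', r'⟩ _ h
        obtain ⟨rfl, rfl⟩ := hinj _ _ _ _ h
        rfl
    exact_mod_cast h1.trans (hQ i hi)
  have hprod : ∀ i ∈ A, ∏ e : E, ∑ r, g i e r < 2 * (K : ℝ) ^ Fintype.card E := by
    intro i hi
    have h1 : ∏ e : E, ∑ r, g i e r =
        ∏ e : E, ((K : ℝ) * (((univ.filter fun r => hid e r ∈ Q i).card : ℝ) / K + 1)) := by
      refine Finset.prod_congr rfl fun e _ => ?_
      rw [hg]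
      field_simp
      ring
    have h2 : ∏ e : E, (((univ.filter fun r => hid e r ∈ Q i).card : ℝ) / K + 1) ≤
        Real.exp (1 / 2) := by
      calc ∏ e : E, (((univ.filter fun r => hid e r ∈ Q i).card : ℝ) / K + 1)
          ≤ ∏ e : E, Real.exp (((univ.filter fun r => hid e r ∈ Q i).card : ℝ) / K) := by
            refine Finset.prod_le_prod (fun e _ => by positivity) fun e _ => ?_
            exact Real.add_one_le_exp _
        _ = Real.exp (∑ e : E, ((univ.filter fun r => hid e r ∈ Q i).card : ℝ) / K) := by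
            rw [Real.exp_sum]
        _ ≤ Real.exp (1 / 2) := by
            refine Real.exp_le_exp.2 ?_
            rw [← Finset.sum_div, div_le_iff₀ hKr]
            have h3 := hsum i hi
            have h4 : (2 : ℝ) * w ≤ K := by exact_mod_cast hw
            linarith
    have h3 : Real.exp (1 / 2) < 2 := by
      have h4 : Real.exp (1 / 2) * Real.exp (1 / 2) < 4 := by
        rw [← Real.exp_add]
        norm_num
        have := Real.exp_one_lt_d9
        linarith
      nlinarith [Real.exp_pos (1 / 2)]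
    rw [h1, Finset.prod_mul_distrib, Finset.prod_const, Finset.card_univ, mul_comm]
    exact mul_lt_mul_of_pos_right (h2.trans_lt h3) (by positivity)
  -- summation
  have hup : ∑ i ∈ A, ∑ ρ : E → R, ∏ e, g i e (ρ e) < 2 ^ q * (2 * (K : ℝ) ^ Fintype.card E) := by
    have h1 : ∀ i, ∑ ρ : E → R, ∏ e, g i e (ρ e) = ∏ e : E, ∑ r, g i e r := by
      intro i
      rw [Finset.prod_univ_sum, Fintype.piFinset_univ]
    rw [Finset.sum_congr rfl fun i _ => h1 i]
    calc ∑ i ∈ A, ∏ e : E, ∑ r, g i e r < ∑ _i ∈ A, 2 * (K : ℝ) ^ Fintype.card E :=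
          Finset.sum_lt_sum_of_nonempty hne hprod
      _ = A.card * (2 * (K : ℝ) ^ Fintype.card E) := by rw [Finset.sum_const, nsmul_eq_mul]
      _ ≤ 2 ^ q * (2 * (K : ℝ) ^ Fintype.card E) := by
          refine mul_le_mul_of_nonneg_right ?_ (by positivity)
          exact_mod_cast hA
  have hlow : (K : ℝ) ^ Fintype.card E * 2 ^ (q + 1) ≤
      ∑ i ∈ A, ∑ ρ : E → R, ∏ e, g i e (ρ e) := by
    rw [Finset.sum_comm]
    calc (K : ℝ) ^ Fintype.card E * 2 ^ (q + 1) = ∑ _ρ : E → R, (2 : ℝ) ^ (q + 1) := by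
          rw [Finset.sum_const, Finset.card_univ, Fintype.card_fun, nsmul_eq_mul]
          push_cast
          rfl
      _ ≤ ∑ ρ : E → R, ∑ i ∈ A, ∏ e, g i e (ρ e) := by
          refine Finset.sum_le_sum fun ρ _ => ?_
          obtain ⟨i, hi, hlt⟩ := hcon ρ
          calc (2 : ℝ) ^ (q + 1) ≤ 2 ^ (univ.filter fun e => hid e (ρ e) ∈ Q i).card :=
                pow_le_pow_right₀ (by norm_num) hlt
            _ = ∏ e, g i e (ρ e) := (hpow i ρ).symm
            _ ≤ ∑ i ∈ A, ∏ e, g i e (ρ e) := by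
                refine Finset.single_le_sum (f := fun i => ∏ e, g i e (ρ e)) ?_ hi
                intro i _
                show 0 ≤ ∏ e, g i e (ρ e)
                rw [hpow]
                positivity
  have h2 : (2 : ℝ) ^ q * (2 * (K : ℝ) ^ Fintype.card E) =
      (K : ℝ) ^ Fintype.card E * 2 ^ (q + 1) := by
    rw [pow_succ]
    ring
  linarith

end Pool.Agent.H66.OD3
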