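import Pool.Agent.H66.OD3.Defs
import Pool.Agent.H66.OD3.Build
import Pool.Agent.H66.OD3.Hid
import Pool.Agent.H9.NW.Hide
import Pool.Agent.H25.NP.Fin

/-!
Circuits restricted to a frame are monotone programs.
-/

namespace Pool.Agent.H66.OD3

open Finset
open Pool.Agent.H25 Pool.Agent.H9.NW

set_option linter.unusedSectionVars false

variable {V E R : Type} [Fintype E] [DecidableEq E] {n : ℕ}

/-- The graph with the edges in `z`. -/
def xz (F : Frame V E R n) (z : Finset E) : SimpleGraph V where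
  Adj u v := ∃ e ∈ z, F.ends e = (u, v) ∨ F.ends e = (v, u)
  symm := ⟨by
    rintro u v ⟨e, he, h⟩
    exact ⟨e, he, h.symm⟩⟩
  loopless := ⟨by
    rintro u ⟨e, _, h | h⟩
    · exact F.ne e (by rw [h])
    · exact F.ne e (by rw [h])⟩

theorem adj_xz {F : Frame V E R n}
    (hends : ∀ e e', F.ends e' = F.ends e ∨ F.ends e' = (F.ends e).swap → e' = e)
    {z : Finset E} {e : E} : (xz F z).Adj (F.ends e).1 (F.ends e).2 ↔ e ∈ z := by
  constructor
  · rintro ⟨e', he', h⟩
    rw [← hends e e' h]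
    exact he'
  · intro h
    exact ⟨e, h, Or.inl rfl⟩

theorem edge_iff {F : Frame V E R n}
    (hends : ∀ e e', F.ends e' = F.ends e ∨ F.ends e' = (F.ends e).swap → e' = e)
    (ρ : E → R) (z : Finset E) (p : Sym2 (Fin n)) :
    p ∈ (F.gr ρ (xz F z)).edgeSet ↔ (∃ e ∈ z, p = F.hid e (ρ e)) ∨
      ((∀ e, p ≠ F.hid e (ρ e)) ∧ p ∈ (F.gr ρ ⊥).edgeSet) := by
  by_cases hp : ∃ e, p = F.hid e (ρ e)
  · obtain ⟨e, rfl⟩ := hp
    rw [F.h1, adj_xz hends]
    constructor
    · intro h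
      exact Or.inl ⟨e, h, rfl⟩
    · rintro (⟨e', he', h⟩ | ⟨h, _⟩)
      · rw [(F.h4 _ _ _ _ h).1]
        exact he'
      · exact absurd rfl (h e)
  · push Not at hp
    constructor
    · intro h
      exact Or.inr ⟨hp, F.h2 ρ _ _ p hp h⟩
    · rintro (⟨e, _, h⟩ | ⟨_, h⟩)
      · exact absurd h (hp e)
      · exact F.h2 ρ _ _ p hp h

theorem edge_insert {F : Frame V E R n}
    (hends : ∀ e e', F.ends e' = F.ends e ∨ F.ends e' = (F.ends e).swap → e' = e)
    (ρ : E → R) (z : Finset E) (e : E) :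
    (F.gr ρ (xz F (insert e z))).edgeSet =
      insert (F.hid e (ρ e)) (F.gr ρ (xz F z)).edgeSet := by
  ext p
  rw [edge_iff hends, Set.mem_insert_iff, edge_iff hends]
  constructor
  · rintro (⟨e', he', rfl⟩ | h)
    · rcases Finset.mem_insert.1 he' with rfl | he'
      · exact Or.inl rfl
      · exact Or.inr (Or.inl ⟨e', he', rfl⟩)
    · exact Or.inr (Or.inr h)
  · rintro (rfl | ⟨e', he', rfl⟩ | h)
    · exact Or.inl ⟨e, Finset.mem_insert_self e z, rfl⟩
    · exact Or.inl ⟨e', Finset.mem_insert_of_mem he', rfl⟩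
    · exact Or.inr h

theorem gr_xz_zz {F : Frame V E R n}
    (hends : ∀ e e', F.ends e' = F.ends e ∨ F.ends e' = (F.ends e).swap → e' = e)
    (ρ : E → R) (x : SimpleGraph V) : F.gr ρ (xz F (zz F.ends x)) = F.gr ρ x := by
  rw [← SimpleGraph.edgeSet_inj]
  ext p
  by_cases hp : ∃ e, p = F.hid e (ρ e)
  · obtain ⟨e, rfl⟩ := hp
    rw [F.h1, F.h1, adj_xz hends]
    unfold zz
    simp
  · push Not at hp
    exact ⟨F.h2 ρ _ _ p hp, F.h2 ρ _ _ p hp⟩

/-- Circuits restricted to a frame are monotone programs. -/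
theorem frame_mc [Fintype R] [Nonempty R] (F : Frame V E R n)
    (hends : ∀ e e', F.ends e' = F.ends e ∨ F.ends e' = (F.ends e).swap → e' = e)
    {a b w l D s : ℕ} (hw : 2 * w ≤ Fintype.card R) (hs : s ≤ 2 ^ l)
    (hwin : ∀ ρ x, a ≤ (F.gr ρ x).edgeSet.ncard ∧ (F.gr ρ x).edgeSet.ncard ≤ b)
    {g : SimpleGraph (Fin n) → Prop} (hg : ∀ G H, G ≤ H → g G → g H)
    {f : ℕ → SimpleGraph (Fin n) → Prop} (h : AlmostMonotone a b w D s f) {out : ℕ}
    (hout : out < s) (hfg : ∀ G : SimpleGraph (Fin n), a ≤ G.edgeSet.ncard →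
      G.edgeSet.ncard ≤ b → (f out G ↔ g G)) {M : ℕ}
    (hM : (Fintype.card E + 1) ^ ((l + 1) * (D + 1)) ≤ M) :
    ∃ ρ : E → R, ∃ P : Set (SimpleGraph V → Prop), (fun x => g (F.gr ρ x)) ∈ P ∧
      MC (Fintype.card E + (s + 1) * (M + M + M * (s * (M * M)) + M * (s * (M * M)) + M * M))
        P := by
  classical
  obtain ⟨V₀, lev, hf⟩ := h
  -- the sets
  let IsT : ℕ → Prop := fun i => ∃ Q : Finset (Sym2 (Fin n)), Q.card ≤ w ∧
    ∀ G H : SimpleGraph (Fin n), (∀ e ∈ Q, e ∈ G.edgeSet ↔ e ∈ H.edgeSet) → (f i G ↔ f i H)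
  let Rd : ℕ → Finset (Sym2 (Fin n)) := fun i => if h : IsT i then h.choose else ∅
  have hRd : ∀ i, (Rd i).card ≤ w := by
    intro i
    show (if h : IsT i then h.choose else ∅ : Finset (Sym2 (Fin n))).card ≤ w
    by_cases h : IsT i
    · rw [dif_pos h]
      exact h.choose_spec.1
    · rw [dif_neg h]
      simp
  have hRd' : ∀ i, IsT i → ∀ G H : SimpleGraph (Fin n),
      (∀ e ∈ Rd i, e ∈ G.edgeSet ↔ e ∈ H.edgeSet) → (f i G ↔ f i H) := by
    intro i h
    have e1 : Rd i = h.choose := dif_pos h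
    rw [e1]
    exact h.choose_spec.2
  obtain ⟨ρ, hρ⟩ := exists_place F.hid F.h4 (range s ×ˢ (univ : Finset Bool))
    (fun p => if p.2 then V₀ p.1 else Rd p.1) (w := w) (q := l + 1) (by
      rintro ⟨i, t⟩ hp
      have hi := Finset.mem_range.1 (Finset.mem_product.1 hp).1
      cases t
      · exact hRd i
      · exact (hf i hi).1) hw (by
      rw [Finset.card_product, Finset.card_range, Finset.card_univ, Fintype.card_bool, pow_succ]
      exact Nat.mul_le_mul_right _ hs)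
  let T : ℕ → Finset E := fun i => univ.filter fun e => F.hid e (ρ e) ∈ V₀ i
  let fz : ℕ → Finset E → Prop := fun i z => f i (F.gr ρ (xz F z))
  have hle : ∀ z e, F.gr ρ (xz F z) ≤ F.gr ρ (xz F (insert e z)) := by
    intro z e
    rw [← SimpleGraph.edgeSet_subset_edgeSet, edge_insert hends]
    exact Set.subset_insert _ _
  have hT : ∀ i < s, MonOff (T i) (fz i) := by
    intro i hi z e he h1
    refine (hf i hi).2.1 _ _ (hwin _ _).1 (hwin _ _).2 (hle z e) ?_ h1
    intro p hp hp2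
    rw [edge_insert hends] at hp2
    rcases Set.mem_insert_iff.1 hp2 with rfl | hp2
    · exact absurd (show e ∈ T i from Finset.mem_filter.2 ⟨Finset.mem_univ _, hp⟩) he
    · exact hp2
  have hTc : ∀ i < s, (T i).card ≤ l + 1 := by
    intro i hi
    exact hρ (i, true) (Finset.mem_product.2 ⟨Finset.mem_range.2 hi, Finset.mem_univ _⟩)
  have hwire : ∀ i j, lev j < lev i ∨ (lev j = lev i ∧ V₀ j = V₀ i) →
      lev j < lev i ∨ (lev j = lev i ∧ T j = T i) := by
    rintro i j (h1 | ⟨h1, h2⟩)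
    · exact Or.inl h1
    · refine Or.inr ⟨h1, ?_⟩
      show (univ.filter fun e => F.hid e (ρ e) ∈ V₀ j) = _
      rw [h2]
  have hgate : ∀ i < s, LGate (l + 1) T lev fz i := by
    intro i hi
    rcases (hf i hi).2.2.2 with hR | ⟨J, K, hJ, hK, h1 | h1⟩
    · refine Or.inl ⟨univ.filter fun e => F.hid e (ρ e) ∈ Rd i, ?_, ?_⟩
      · exact hρ (i, false) (Finset.mem_product.2 ⟨Finset.mem_range.2 hi, Finset.mem_univ _⟩)
      · intro z z' hz
        refine hRd' i hR _ _ fun p hp => ?_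
        rw [edge_iff hends, edge_iff hends]
        refine or_congr ?_ Iff.rfl
        constructor
        · rintro ⟨e, he, rfl⟩
          refine ⟨e, ?_, rfl⟩
          have h2 : e ∈ z ∩ univ.filter fun e => F.hid e (ρ e) ∈ Rd i :=
            Finset.mem_inter.2 ⟨he, Finset.mem_filter.2 ⟨Finset.mem_univ _, hp⟩⟩
          rw [hz] at h2
          exact (Finset.mem_inter.1 h2).1
        · rintro ⟨e, he, rfl⟩
          refine ⟨e, ?_, rfl⟩
          have h2 : e ∈ z' ∩ univ.filter fun e => F.hid e (ρ e) ∈ Rd i :=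
            Finset.mem_inter.2 ⟨he, Finset.mem_filter.2 ⟨Finset.mem_univ _, hp⟩⟩
          rw [← hz] at h2
          exact (Finset.mem_inter.1 h2).1
    · exact Or.inr ⟨J, K, fun j hj => ⟨(hJ j hj).1, hwire i j (hJ j hj).2⟩, hK,
        Or.inl fun z => h1 _⟩
    · exact Or.inr ⟨J, K, fun j hj => ⟨(hJ j hj).1, hwire i j (hJ j hj).2⟩, hK,
        Or.inr fun z => h1 _⟩
  have hmono : MonOff ∅ (fz out) := by
    intro z e _ h1
    exact (hfg _ (hwin _ _).1 (hwin _ _).2).2 (hg _ _ (hle z e)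
      ((hfg _ (hwin _ _).1 (hwin _ _).2).1 h1))
  obtain ⟨P, hP, hmc⟩ := build_out (ends := F.ends) hT hTc (fun i hi => (hf i hi).2.2.1) hgate
    (le_trans (NP.small_le E _) hM) hout hmono
  refine ⟨ρ, P, ?_, hmc⟩
  have e1 : (fun x => g (F.gr ρ x)) = fun x => fz out (zz F.ends x) := by
    funext x
    show g (F.gr ρ x) = f out (F.gr ρ (xz F (zz F.ends x)))
    rw [gr_xz_zz hends]
    exact propext (hfg _ (hwin _ _).1 (hwin _ _).2).symm
  rw [e1]
  exact hP

end Pool.Agent.H66.OD3
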