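import Pool.Agent.H66.OD3.LowA
import Pool.Agent.H9.NW.Core

/-!
The monotone lower bound and the finite form of the bound.
-/

namespace Pool.Agent.H66.OD3

open Finset
open Pool.Agent.H25 Pool.Agent.H25.NM Pool.Agent.H9.NW

set_option linter.unusedSectionVars false

/-- Small monotone programs do not separate planted cliques from graphs without large cliques. -/
theorem mono_lower {c b Q m h : ℕ} [NeZero Q]
    (hm : 2 ≤ m) (hh : 1 ≤ h) (hQ : m * m ≤ Q) (hb : 32 * (h * m) ≤ b)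
    (hcl : 8 * (c * b) ^ c * (Q - 1) ^ (c.choose 2) ≤ Q ^ (c.choose 2))
    {S : ℕ}
    (he1 : 8 * (S * ((m + 1) ^ 2 * 2 ^ m)) ≤ 32 ^ (m + 1))
    (he2 : 8 * (S * (c * b + 1) ^ m) ≤ 2 ^ h)
    {F : SimpleGraph (Fin c × Fin b) → Prop} (hsize : MonoSize S F)
    (hpos : ∀ p : Fin c → Fin b, F (cq (tr p)))
    (hng : ∀ x : SimpleGraph (Fin c × Fin b), x.CliqueFree c → ¬ F x) : False := by
  classical
  have hP0 : 0 < b := by
    have : 1 ≤ h * m := Nat.one_le_iff_ne_zero.2 (Nat.mul_ne_zero (by omega) (by omega))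
    omega
  have : Nonempty (Fin b) := ⟨⟨0, hP0⟩⟩
  set P := Fintype.card (Fin c → Fin b) with hP
  have hPpos : 0 < P := Fintype.card_pos
  have hgood : P ≤ 2 * nc (fun p : Fin c → Fin b => F (cq (tr p))) := by
    have h2 := nc_add_nc_not fun p : Fin c → Fin b => F (cq (tr p))
    have h3 : nc (fun p : Fin c → Fin b => ¬ F (cq (tr p))) = 0 :=
      nc_false fun p hp => hp (hpos p)
    rw [← hP] at h2
    omega
  -- negative graphs
  set Ω := Fintype.card (Sym2 (Fin c × Fin b) → Fin Q) with hΩ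
  have hΩpos : 0 < Ω := Fintype.card_pos
  have hneg : 8 * nc (fun ω : Sym2 (Fin c × Fin b) → Fin Q => F (gr (NP.nz Q) ω)) ≤ Ω := by
    have h1 : nc (fun ω : Sym2 (Fin c × Fin b) → Fin Q => F (gr (NP.nz Q) ω)) ≤
        nc (fun ω : Sym2 (Fin c × Fin b) → Fin Q =>
          ¬ (gr (NP.nz Q) ω : SimpleGraph (Fin c × Fin b)).CliqueFree c) :=
      nc_mono fun ω hω hfree => hng _ hfree hω
    have h2 := nc_dense_clique (V := Fin c × Fin b) Q c
    rw [Fintype.card_prod, Fintype.card_fin, Fintype.card_fin, ← hΩ] at h2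
    have hQp : 0 < Q ^ (c.choose 2) := Nat.pow_pos (Nat.pos_of_ne_zero (NeZero.ne Q))
    refine Nat.le_of_mul_le_mul_right ?_ hQp
    calc 8 * nc (fun ω : Sym2 (Fin c × Fin b) → Fin Q => F (gr (NP.nz Q) ω)) * Q ^ (c.choose 2)
        ≤ 8 * nc (fun ω : Sym2 (Fin c × Fin b) → Fin Q =>
          ¬ (gr (NP.nz Q) ω : SimpleGraph (Fin c × Fin b)).CliqueFree c) * Q ^ (c.choose 2) :=
          Nat.mul_le_mul_right _ (Nat.mul_le_mul_left _ h1)
      _ = 8 * (nc (fun ω : Sym2 (Fin c × Fin b) → Fin Q =>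
          ¬ (gr (NP.nz Q) ω : SimpleGraph (Fin c × Fin b)).CliqueFree c) * Q ^ (c.choose 2)) := by
          ring
      _ ≤ 8 * ((c * b) ^ c * (Q - 1) ^ (c.choose 2) * Ω) := Nat.mul_le_mul_left _ h2
      _ = (8 * (c * b) ^ c * (Q - 1) ^ (c.choose 2)) * Ω := by ring
      _ ≤ Q ^ (c.choose 2) * Ω := Nat.mul_le_mul_right _ hcl
      _ = Ω * Q ^ (c.choose 2) := by ring
  -- the block lemma
  have hB := NP.blockHyp_dense (k := c) (w := b) (Q := Q) m h (by omega) hh hQ hb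
  have hmain := hB.main hm hsize
  rw [nc_prod_and (fun p : Fin c → Fin b => F (cq (tr p)))
    fun ω : Sym2 (Fin c × Fin b) → Fin Q => ¬ F (gr (NP.nz Q) ω), ← hP, ← hΩ] at hmain
  have hnot := nc_add_nc_not fun ω : Sym2 (Fin c × Fin b) → Fin Q => F (gr (NP.nz Q) ω)
  rw [← hΩ] at hnot
  -- the error term
  set η : ℝ := (1 / 32 : ℝ) ^ (m + 1) with hη
  have hε : (S : ℝ) * ((m + 1) ^ 2 * 2 ^ m * η + small (Fin c × Fin b) m / ((2 ^ h : ℕ) : ℝ)) ≤
      1 / 4 := by
    have g1 : (S : ℝ) * ((m + 1) ^ 2 * 2 ^ m * η) ≤ 1 / 8 := by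
      have e1 : (8 : ℝ) * ((S : ℝ) * ((m + 1) ^ 2 * 2 ^ m)) ≤ 32 ^ (m + 1) := by
        exact_mod_cast he1
      have e2 : η * 32 ^ (m + 1) = 1 := by
        rw [hη, ← mul_pow]
        norm_num
      have e3 : (0 : ℝ) ≤ η := by
        rw [hη]
        positivity
      have e4 := mul_le_mul_of_nonneg_left e1 e3
      rw [e2] at e4
      linarith
    have g2 : (S : ℝ) * (small (Fin c × Fin b) m / ((2 ^ h : ℕ) : ℝ)) ≤ 1 / 8 := by
      have e3 := NP.small_le (Fin c × Fin b) m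
      rw [Fintype.card_prod, Fintype.card_fin, Fintype.card_fin] at e3
      have e4 : 8 * (S * small (Fin c × Fin b) m) ≤ 2 ^ h :=
        le_trans (Nat.mul_le_mul_left _ (Nat.mul_le_mul_left _ e3)) he2
      have e5 : (8 : ℝ) * ((S : ℝ) * small (Fin c × Fin b) m) ≤ ((2 ^ h : ℕ) : ℝ) := by
        exact_mod_cast e4
      have e6 : (0 : ℝ) < ((2 ^ h : ℕ) : ℝ) := by positivity
      rw [← mul_div_assoc, div_le_iff₀ e6]
      linarith
    have g3 : (S : ℝ) * ((m + 1) ^ 2 * 2 ^ m * η + small (Fin c × Fin b) m / ((2 ^ h : ℕ) : ℝ)) =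
        (S : ℝ) * ((m + 1) ^ 2 * 2 ^ m * η) +
          (S : ℝ) * (small (Fin c × Fin b) m / ((2 ^ h : ℕ) : ℝ)) := by ring
    rw [g3]
    linarith
  -- conclusion
  set X := nc (fun p : Fin c → Fin b => F (cq (tr p))) with hX
  set Y := nc (fun ω : Sym2 (Fin c × Fin b) → Fin Q => F (gr (NP.nz Q) ω)) with hY
  set Y' := nc (fun ω : Sym2 (Fin c × Fin b) → Fin Q => ¬ F (gr (NP.nz Q) ω)) with hY'
  have hPr : (0 : ℝ) < P := by exact_mod_cast hPpos
  have hΩr : (0 : ℝ) < Ω := by exact_mod_cast hΩpos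
  have k1 : (P : ℝ) ≤ 2 * X := by exact_mod_cast hgood
  have k2 : (8 : ℝ) * Y ≤ Ω := by exact_mod_cast hneg
  have k3 : (Y : ℝ) + Y' = Ω := by exact_mod_cast hnot
  have k4 : (X : ℝ) * Y' ≤ P * Y + 1 / 4 * (P * Ω) := by
    push_cast at hmain
    refine hmain.trans ?_
    have := mul_le_mul_of_nonneg_right hε (by positivity : (0 : ℝ) ≤ (P : ℝ) * Ω)
    push_cast at this
    linarith
  have k5 : (7 / 8 : ℝ) * Ω ≤ Y' := by linarith
  have k6 : (P / 2 : ℝ) * (7 / 8 * Ω) ≤ X * Y' :=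
    mul_le_mul (by linarith) k5 (by positivity) (by positivity)
  have k7 : (P : ℝ) * Y ≤ P * (Ω / 8) := mul_le_mul_of_nonneg_left (by linarith) hPr.le
  have k8 : (0 : ℝ) < P * Ω := by positivity
  nlinarith

/-- **Finite form.** -/
theorem core {c b t u r n a w s Q m h l D : ℕ} [NeZero Q]
    (hm : 2 ≤ m) (hh : 1 ≤ h) (hQ : m * m ≤ Q) (hb : 32 * (h * m) ≤ b) (ht : 0 < t)
    (hn : c * (c * (b * t)) + u + 2 * r ≤ n) (h3 : 3 ≤ c * c + u)
    (ha1 : (c * (c * (b * t)) + u) ^ 2 ≤ a) (ha2 : a ≤ r * r) (hw : 2 * w ≤ t * t)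
    (hcl : 8 * (c * b) ^ c * (Q - 1) ^ (c.choose 2) ≤ Q ^ (c.choose 2))
    {S M N : ℕ} (hM : (c * b * (c * b) + 1) ^ ((l + 1) * (D + 1)) ≤ M)
    (hN : c * b * (c * b) +
      (s + 1) * (M + M + M * (s * (M * M)) + M * (s * (M * M)) + M * M) ≤ N)
    (hS : N * (N + 1) ≤ S)
    (he1 : 8 * (S * ((m + 1) ^ 2 * 2 ^ m)) ≤ 32 ^ (m + 1))
    (he2 : 8 * (S * (c * b + 1) ^ m) ≤ 2 ^ h) (hs : s ≤ 2 ^ l)
    {F : ℕ → SimpleGraph (Fin n) → Prop} (hC : AlmostMonotone a (a + c * b * (c * b)) w D s F)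
    {out : ℕ} (hout : out < s)
    (hF : ∀ G : SimpleGraph (Fin n), a ≤ G.edgeSet.ncard →
      G.edgeSet.ncard ≤ a + c * b * (c * b) → (F out G ↔ ¬ G.CliqueFree (c * c + u))) :
    False := by
  classical
  obtain ⟨J, hJ⟩ := exists_filling (c := c) (b := b) (t := t) (u := u) (r := r) ha1 ha2 ht
  obtain ⟨ι⟩ : Nonempty (Vx c b t u r ↪ Fin n) := by
    refine Function.Embedding.nonempty_of_card_le ?_
    simp only [Fintype.card_sum, Fintype.card_prod, Fintype.card_fin]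
    omega
  set f := frame J ι with hf
  have hcK : Fintype.card (Pr c b) ≤ c * b * (c * b) := by
    refine (Fintype.card_subtype_le _).trans ?_
    simp only [Fintype.card_prod, Fintype.card_fin]
    exact le_refl _
  have hwin : ∀ (ρ : Pr c b → Fin t × Fin t) (x : SimpleGraph (Fin c × Fin b)),
      a ≤ (f.gr ρ x).edgeSet.ncard ∧ (f.gr ρ x).edgeSet.ncard ≤ a + c * b * (c * b) := by
    intro ρ x
    obtain ⟨g1, g2⟩ := frame_edges ι hJ ρ x
    exact ⟨g1, g2.trans (Nat.add_le_add_left hcK _)⟩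
  have : Nonempty (Fin t × Fin t) := ⟨(⟨0, ht⟩, ⟨0, ht⟩)⟩
  have hends : ∀ e e' : Pr c b, f.ends e' = f.ends e ∨ f.ends e' = (f.ends e).swap → e' = e := by
    rintro e e' (h | h)
    · exact Subtype.ext h
    · exfalso
      have h1 := e.2
      have h2 := e'.2
      have h4 : e'.1 = (e.1).swap := h
      rw [h4] at h2
      exact lt_irrefl _ (h1.trans h2)
  obtain ⟨ρ, P, hgP, hmc⟩ := frame_mc f hends (a := a) (b := a + c * b * (c * b)) (w := w)
    (l := l) (D := D) (s := s) (by rw [Fintype.card_prod, Fintype.card_fin]; exact hw) hs hwin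
    (g := fun G => ¬ G.CliqueFree (c * c + u)) (fun G H hGH hG hH => hG (hH.anti hGH)) hC
    hout hF (M := M) ((Nat.pow_le_pow_left (Nat.add_le_add_right hcK 1) _).trans hM)
  have hmc2 : MC N P := hmc.mono (le_trans (Nat.add_le_add_right hcK _) hN) (le_refl _)
  have hsize := hmc2.size hgP
  have hsize2 : MonoSize S (fun x => ¬ (f.gr ρ x).CliqueFree (c * c + u)) := by
    obtain ⟨g, hg, i, hi, hgi⟩ := hsize
    refine ⟨fun j x => if j < N * (N + 1) then g j x else False, ?_, i, hi.trans_le hS,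
      fun x => ?_⟩
    · intro j _
      by_cases hj : j < N * (N + 1)
      · rcases hg j hj with ⟨y, z, h1⟩ | h1 | ⟨j', k', hj', hk', h1⟩ | ⟨T, hT, h1⟩
        · exact Or.inl ⟨y, z, fun x => by simp only [if_pos hj]; exact h1 x⟩
        · exact Or.inr (Or.inl fun x => by simp only [if_pos hj]; exact h1 x)
        · refine Or.inr (Or.inr (Or.inl ⟨j', k', hj', hk', fun x => ?_⟩))
          simp only [if_pos hj, if_pos (hj'.trans hj), if_pos (hk'.trans hj)]
          exact h1 x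
        · refine Or.inr (Or.inr (Or.inr ⟨T, hT, fun x => ?_⟩))
          simp only [if_pos hj]
          rw [h1]
          refine exists_congr fun k' => and_congr_right fun hk' => ?_
          simp only [if_pos ((hT k' hk').trans hj)]
      · exact MGate.of_false fun x => by simp only [if_neg hj, not_false_iff]
    · simp only [if_pos hi]
      exact hgi x
  exact mono_lower hm hh hQ hb hcl he1 he2 hsize2 (fun p => frame_planted ι h3 ht p)
    (fun x hx h => h (frame_cliqueFree ι h3 hx))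

end Pool.Agent.H66.OD3
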