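import Pool.Agent.H9.NW.Wide
import Pool.Agent.H25.NM.Approx

/-!
Sets of graph properties computed by one monotone program.
-/

namespace Pool.Agent.H66.OD3

open Finset
open Pool.Agent.H25 Pool.Agent.H9.NW

variable {V : Type}

/-- A monotone program with at most `N` gates computes all members of `P`. -/
def MC (N : ℕ) (P : Set (SimpleGraph V → Prop)) : Prop :=
  ∃ m ≤ N, ∃ f : ℕ → SimpleGraph V → Prop, (∀ i < m, WGate f i) ∧ ∀ g ∈ P, ∃ i < m, f i = g

theorem MC.empty : MC 0 (∅ : Set (SimpleGraph V → Prop)) :=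
  ⟨0, le_refl _, fun _ _ => False, fun i hi => absurd hi (by omega),
    fun g hg => absurd hg (Set.notMem_empty g)⟩

theorem MC.mono {N N' : ℕ} {P P' : Set (SimpleGraph V → Prop)} (h : MC N P) (hN : N ≤ N')
    (hP : P' ⊆ P) : MC N' P' := by
  obtain ⟨m, hm, f, hf, hg⟩ := h
  exact ⟨m, hm.trans hN, f, hf, fun g hg' => hg g (hP hg')⟩

/-- An edge test, or an AND or an OR of members of `P`. -/
def Simp (P : Set (SimpleGraph V → Prop)) (g : SimpleGraph V → Prop) : Prop :=
  (∃ u v, ∀ x, g x ↔ x.Adj u v) ∨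
  (∃ T ⊆ P, ∀ x, g x ↔ ∀ h ∈ T, h x) ∨
  (∃ T ⊆ P, ∀ x, g x ↔ ∃ h ∈ T, h x)

theorem Simp.mono {P P' : Set (SimpleGraph V → Prop)} (hP : P ⊆ P') {g : SimpleGraph V → Prop}
    (h : Simp P g) : Simp P' g := by
  rcases h with h | ⟨T, hT, h⟩ | ⟨T, hT, h⟩
  · exact Or.inl h
  · exact Or.inr (Or.inl ⟨T, hT.trans hP, h⟩)
  · exact Or.inr (Or.inr ⟨T, hT.trans hP, h⟩)

theorem MC.add {N : ℕ} {P : Set (SimpleGraph V → Prop)} (h : MC N P) {g : SimpleGraph V → Prop}
    (hg : Simp P g) : MC (N + 1) (insert g P) := by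
  classical
  obtain ⟨m, hm, f, hf, hP⟩ := h
  let f' : ℕ → SimpleGraph V → Prop := fun i => if i = m then g else f i
  have h1 : ∀ i < m, f' i = f i := fun i hi => if_neg (by omega)
  have h2 : f' m = g := if_pos rfl
  have hT : ∀ T ⊆ P, ∃ S : Finset ℕ, (∀ j ∈ S, j < m) ∧ (∀ j ∈ S, f' j ∈ T) ∧
      ∀ h ∈ T, ∃ j ∈ S, f' j = h := by
    intro T hT
    refine ⟨(range m).filter fun j => f j ∈ T, ?_, ?_, ?_⟩
    · intro j hj
      exact Finset.mem_range.1 (Finset.mem_filter.1 hj).1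
    · intro j hj
      obtain ⟨e1, e2⟩ := Finset.mem_filter.1 hj
      rw [h1 j (Finset.mem_range.1 e1)]
      exact e2
    · intro h hh
      obtain ⟨j, hj, e⟩ := hP h (hT hh)
      refine ⟨j, Finset.mem_filter.2 ⟨Finset.mem_range.2 hj, by rw [e]; exact hh⟩, ?_⟩
      rw [h1 j hj, e]
  refine ⟨m + 1, by omega, f', ?_, ?_⟩
  · intro i hi
    rcases Nat.lt_succ_iff_lt_or_eq.1 hi with hlt | rfl
    · rcases hf i hlt with ⟨u, v, h⟩ | ⟨S, hS, h⟩ | ⟨S, hS, h⟩
      · refine Or.inl ⟨u, v, fun x => ?_⟩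
        rw [h1 i hlt]
        exact h x
      · refine Or.inr (Or.inl ⟨S, hS, fun x => ?_⟩)
        rw [h1 i hlt, h]
        refine forall_congr' fun j => forall_congr' fun hj => ?_
        rw [h1 j ((hS j hj).trans hlt)]
      · refine Or.inr (Or.inr ⟨S, hS, fun x => ?_⟩)
        rw [h1 i hlt, h]
        refine exists_congr fun j => and_congr_right fun hj => ?_
        rw [h1 j ((hS j hj).trans hlt)]
    · rcases hg with ⟨u, v, h⟩ | ⟨T, hTP, h⟩ | ⟨T, hTP, h⟩
      · exact Or.inl ⟨u, v, fun x => by rw [h2]; exact h x⟩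
      · obtain ⟨S, e1, e2, e3⟩ := hT T hTP
        refine Or.inr (Or.inl ⟨S, e1, fun x => ?_⟩)
        rw [h2, h]
        constructor
        · intro h' j hj
          exact h' _ (e2 j hj)
        · intro h' k hk
          obtain ⟨j, hj, rfl⟩ := e3 k hk
          exact h' j hj
      · obtain ⟨S, e1, e2, e3⟩ := hT T hTP
        refine Or.inr (Or.inr ⟨S, e1, fun x => ?_⟩)
        rw [h2, h]
        constructor
        · rintro ⟨k, hk, hx⟩
          obtain ⟨j, hj, rfl⟩ := e3 k hk
          exact ⟨j, hj, hx⟩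
        · rintro ⟨j, hj, hx⟩
          exact ⟨_, e2 j hj, hx⟩
  · intro k hk
    rcases Set.mem_insert_iff.1 hk with rfl | hk
    · exact ⟨m, by omega, h2⟩
    · obtain ⟨j, hj, e⟩ := hP k hk
      exact ⟨j, by omega, by rw [h1 j hj, e]⟩

theorem MC.image {ι : Type} {N : ℕ} {P : Set (SimpleGraph V → Prop)} (h : MC N P) (A : Finset ι)
    (g : ι → SimpleGraph V → Prop) (hg : ∀ i ∈ A, Simp P (g i)) :
    MC (N + A.card) (P ∪ g '' A) := by
  classical
  induction A using Finset.induction_on with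
  | empty => simpa using h
  | insert a A ha ih =>
    have h1 := ih fun i hi => hg i (Finset.mem_insert_of_mem hi)
    have h2 := h1.add ((hg a (Finset.mem_insert_self a A)).mono Set.subset_union_left)
    rw [Finset.card_insert_of_notMem ha, ← add_assoc]
    refine h2.mono (le_refl _) ?_
    rw [Finset.coe_insert, Set.image_insert_eq]
    intro k hk
    rcases hk with hk | hk | hk
    · exact Or.inr (Or.inl hk)
    · exact Or.inl hk
    · exact Or.inr (Or.inr hk)

theorem MC.size {N : ℕ} {P : Set (SimpleGraph V → Prop)} (h : MC N P) {g : SimpleGraph V → Prop}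
    (hg : g ∈ P) : NM.MonoSize (N * (N + 1)) g := by
  classical
  obtain ⟨m, hm, f, hf, hP⟩ := h
  obtain ⟨i, hi, rfl⟩ := hP g hg
  let f' : ℕ → SimpleGraph V → Prop := fun i => if i < m then f i else fun _ => False
  have h1 : ∀ i < m, f' i = f i := fun i hi => if_pos hi
  have h2 : ∀ i, ¬ i < m → f' i = fun _ => False := fun i hi => if_neg hi
  have hw : ∀ i < N, WGate f' i := by
    intro i _
    by_cases hlt : i < m
    · rcases hf i hlt with ⟨u, v, h⟩ | ⟨S, hS, h⟩ | ⟨S, hS, h⟩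
      · refine Or.inl ⟨u, v, fun x => ?_⟩
        rw [h1 i hlt]
        exact h x
      · refine Or.inr (Or.inl ⟨S, hS, fun x => ?_⟩)
        rw [h1 i hlt, h]
        refine forall_congr' fun j => forall_congr' fun hj => ?_
        rw [h1 j ((hS j hj).trans hlt)]
      · refine Or.inr (Or.inr ⟨S, hS, fun x => ?_⟩)
        rw [h1 i hlt, h]
        refine exists_congr fun j => and_congr_right fun hj => ?_
        rw [h1 j ((hS j hj).trans hlt)]
    · refine Or.inr (Or.inr ⟨∅, by simp, fun x => ?_⟩)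
      rw [h2 i hlt]
      simp
  have h3 := monoSize_of_wide hw (hi.trans_le hm)
  rw [h1 i hi] at h3
  exact h3

end Pool.Agent.H66.OD3
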