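import Pool.Agent.H66.OD3.LowB
import Pool.Agent.H25.NP.Main

/-!
The choice of the parameters.
-/

namespace Pool.Agent.H66.OD3

open Finset
open Pool.Agent.H25 Pool.Agent.H25.NM Pool.Agent.H9.NW

/-- The number of gates of the monotone program. -/
theorem size_le {L l D m s K M : ℕ} (hL : 1 ≤ L) (hl : 1 ≤ l) (hm : 16 * l * (D + 1) * L ≤ m)
    (hs : s ≤ 2 ^ l) (hK : K + 1 ≤ 2 ^ (2 * L)) (hM : M = 2 ^ (2 * L * ((l + 1) * (D + 1)))) :
    (K + (s + 1) * (M + M + M * (s * (M * M)) + M * (s * (M * M)) + M * M)) *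
      (K + (s + 1) * (M + M + M * (s * (M * M)) + M * (s * (M * M)) + M * M) + 1) ≤
      2 ^ (4 * m) := by
  have hM1 : 1 ≤ M := by
    rw [hM]
    exact Nat.one_le_two_pow
  set X := 2 ^ l with hX
  have hX1 : 1 ≤ X := Nat.one_le_two_pow
  -- all terms are at most X * X * M ^ 3
  set Z := X * X * (M * M * M) with hZ
  have hKM : K + 1 ≤ M := by
    refine hK.trans ?_
    rw [hM]
    refine Nat.pow_le_pow_right (by norm_num) ?_
    calc 2 * L = 2 * L * (1 * 1) := by ring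
      _ ≤ 2 * L * ((l + 1) * (D + 1)) :=
          Nat.mul_le_mul_left _ (Nat.mul_le_mul (by omega) (by omega))
  have hMM : M ≤ M * M * M := by
    calc M = M * 1 * 1 := by ring
      _ ≤ M * M * M := Nat.mul_le_mul (Nat.mul_le_mul_left _ hM1) hM1
  have hMM2 : M * M ≤ M * M * M := Nat.le_mul_of_pos_right _ hM1
  have hXX : X ≤ X * X := Nat.le_mul_of_pos_right _ hX1
  have hs1 : s + 1 ≤ 2 * X := by omega
  have h1 : (s + 1) * M ≤ 2 * Z := by
    calc (s + 1) * M ≤ 2 * X * (M * M * M) := Nat.mul_le_mul hs1 hMM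
      _ = 2 * (X * (M * M * M)) := by ring
      _ ≤ 2 * (X * X * (M * M * M)) := Nat.mul_le_mul_left _ (Nat.mul_le_mul_right _ hXX)
  have h2 : (s + 1) * (M * (s * (M * M))) ≤ 2 * Z := by
    calc (s + 1) * (M * (s * (M * M))) = (s + 1) * s * (M * M * M) := by ring
      _ ≤ 2 * X * X * (M * M * M) := Nat.mul_le_mul_right _ (Nat.mul_le_mul hs1 hs)
      _ = 2 * (X * X * (M * M * M)) := by ring
  have h3 : (s + 1) * (M * M) ≤ 2 * Z := by
    calc (s + 1) * (M * M) ≤ 2 * X * (M * M * M) := Nat.mul_le_mul hs1 hMM2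
      _ = 2 * (X * (M * M * M)) := by ring
      _ ≤ 2 * (X * X * (M * M * M)) := Nat.mul_le_mul_left _ (Nat.mul_le_mul_right _ hXX)
  have h4 : K + 1 ≤ Z := by
    calc K + 1 ≤ M := hKM
      _ ≤ M * M * M := hMM
      _ = 1 * 1 * (M * M * M) := by ring
      _ ≤ X * X * (M * M * M) := Nat.mul_le_mul_right _ (Nat.mul_le_mul hX1 hX1)
  have h5 : K + (s + 1) * (M + M + M * (s * (M * M)) + M * (s * (M * M)) + M * M) + 1 ≤
      16 * Z := by
    have e : (s + 1) * (M + M + M * (s * (M * M)) + M * (s * (M * M)) + M * M) =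
        (s + 1) * M + (s + 1) * M + (s + 1) * (M * (s * (M * M))) +
          (s + 1) * (M * (s * (M * M))) + (s + 1) * (M * M) := by ring
    rw [e]
    omega
  have h6 : 16 * Z = 2 ^ (4 + (2 * l + 6 * L * ((l + 1) * (D + 1)))) := by
    rw [hZ, hX, hM, pow_add, pow_add]
    congr 2
    · rw [← pow_add]
      congr 1
      ring
    · rw [← pow_add, ← pow_add]
      congr 1
      ring
  have h7 : 4 + (2 * l + 6 * L * ((l + 1) * (D + 1))) ≤ 2 * m := by
    refine le_trans ?_ (Nat.mul_le_mul_left 2 hm)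
    have e1 : 6 * L * ((l + 1) * (D + 1)) ≤ 6 * L * ((l + l) * (D + 1)) :=
      Nat.mul_le_mul_left _ (Nat.mul_le_mul_right _ (by omega))
    have e2 : l * 1 * 1 ≤ l * (D + 1) * L :=
      Nat.mul_le_mul (Nat.mul_le_mul_left _ (by omega)) hL
    have e3 : 6 * L * ((l + l) * (D + 1)) = 12 * (l * (D + 1) * L) := by ring
    have e4 : 2 * (16 * l * (D + 1) * L) = 32 * (l * (D + 1) * L) := by ring
    omega
  calc _ ≤ (16 * Z) * (16 * Z) := Nat.mul_le_mul (by omega) h5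
    _ = 2 ^ ((4 + (2 * l + 6 * L * ((l + 1) * (D + 1)))) +
        (4 + (2 * l + 6 * L * ((l + 1) * (D + 1))))) := by rw [h6, ← pow_add]
    _ ≤ 2 ^ (4 * m) := Nat.pow_le_pow_right (by norm_num) (by omega)

/-- **Lower bound.** -/
theorem lower {n L l D m k a w s : ℕ} (hL : 1 ≤ L) (hLl : L ≤ l) (hnL : n ≤ 2 ^ L)
    (hs : s ≤ 2 ^ l) (hm : 16 * l * (D + 1) * L ≤ m)
    (hk : 2 ^ 16 * m ^ 4 * L ^ 2 ≤ k) (hka : 2 * k ^ 2 ≤ a) (han : 9 * a ≤ n ^ 2)
    {F : ℕ → SimpleGraph (Fin n) → Prop}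
    (hC : AlmostMonotone a (a + 2 ^ 38 * m ^ 8 * L ^ 4) w D s F) {out : ℕ} (hout : out < s)
    (hF : ∀ G : SimpleGraph (Fin n), a ≤ G.edgeSet.ncard →
      G.edgeSet.ncard ≤ a + 2 ^ 38 * m ^ 8 * L ^ 4 → (F out G ↔ ¬ G.CliqueFree k)) :
    a < 2 ^ 60 * m ^ 12 * L ^ 6 * (w + 1) := by
  by_contra hcon
  push Not at hcon
  have hl : 1 ≤ l := hL.trans hLl
  have hDL : l ≤ m := by
    refine le_trans ?_ hm
    calc l = 1 * l * 1 * 1 := by ring
      _ ≤ 16 * l * (D + 1) * L :=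
          Nat.mul_le_mul (Nat.mul_le_mul (Nat.mul_le_mul_right _ (by norm_num)) (by omega)) hL
  have hm1 : 1 ≤ m := hl.trans hDL
  have hLm : L ≤ m := hLl.trans hDL
  set c := 2 ^ 8 * m ^ 2 * L with hc
  set b := 2 ^ 11 * m ^ 2 * L with hb
  set A := 2 ^ 27 * m ^ 6 * L ^ 3 with hA
  set S := Nat.sqrt a with hSdef
  set t := S / (4 * A) with htdef
  have hA1 : 1 ≤ A := by
    rw [hA]
    exact Nat.one_le_iff_ne_zero.2 (by positivity)
  have hcA : ∀ y, c * (c * (b * y)) = A * y := by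
    intro y
    rw [hc, hb, hA]
    ring
  have hS1 : S * S ≤ a := Nat.sqrt_le a
  have hS2 : a < (S + 1) * (S + 1) := Nat.lt_succ_sqrt a
  have hA2 : 64 * (A * A) * (w + 1) ≤ a := by
    refine le_trans (le_of_eq ?_) hcon
    rw [hA]
    ring
  have hwA : 64 * (A * A) * 1 ≤ 64 * (A * A) * (w + 1) := Nat.mul_le_mul_left _ (by omega)
  -- the number of copies
  have ht1 : 4 * A * t ≤ S := Nat.mul_div_le _ _
  have ht2 : S < 4 * A * (t + 1) := Nat.lt_mul_div_succ _ (by omega)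
  have ht3 : a < 16 * (A * A) * ((t + 1) * (t + 1)) := by
    calc a < (S + 1) * (S + 1) := hS2
      _ ≤ (4 * A * (t + 1)) * (4 * A * (t + 1)) := Nat.mul_le_mul ht2 ht2
      _ = 16 * (A * A) * ((t + 1) * (t + 1)) := by ring
  have ht : 0 < t := by
    rcases Nat.eq_zero_or_pos t with h | h
    · exfalso
      rw [h] at ht3
      have : 0 < A * A := Nat.mul_pos hA1 hA1
      omega
    · exact h
  have hw : 2 * w ≤ t * t := by
    by_contra hlt
    push Not at hlt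
    have h1 : (t + 1) * (t + 1) ≤ 4 * (w + 1) := by nlinarith
    have h2 : 16 * (A * A) * ((t + 1) * (t + 1)) ≤ 16 * (A * A) * (4 * (w + 1)) :=
      Nat.mul_le_mul_left _ h1
    have h3 : 16 * (A * A) * (4 * (w + 1)) = 64 * (A * A) * (w + 1) := by ring
    omega
  have hSbig : 100 ≤ S := by
    by_contra hlt
    push Not at hlt
    have h1 : (S + 1) * (S + 1) ≤ 100 * 100 := Nat.mul_le_mul (by omega) (by omega)
    have h2 : 2 ^ 27 ≤ A := by
      rw [hA, mul_assoc]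
      exact Nat.le_mul_of_pos_right _ (by positivity)
    have h3 : 2 ^ 27 * 2 ^ 27 ≤ A * A := Nat.mul_le_mul h2 h2
    norm_num at h3
    omega
  have hkS : 100 * k < 71 * (S + 1) := by
    by_contra hlt
    push Not at hlt
    have h1 : (71 * (S + 1)) * (71 * (S + 1)) ≤ (100 * k) * (100 * k) := Nat.mul_le_mul hlt hlt
    have h2 : 2 * (k * k) ≤ a := by
      rw [← sq]
      exact hka
    nlinarith
  have hnS : 3 * S ≤ n := by
    by_contra hlt
    push Not at hlt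
    have h1 : n * n < (3 * S) * (3 * S) := Nat.mul_self_lt_mul_self hlt
    have h2 : n ^ 2 = n * n := sq n
    nlinarith
  have hck : c * c ≤ k := by
    refine le_trans (le_of_eq ?_) hk
    rw [hc]
    ring
  obtain ⟨u, hu⟩ : ∃ u, k = c * c + u := Nat.exists_eq_add_of_le hck
  -- sizes
  set Z : ℕ := m ^ 4 * L ^ 2 with hZ
  have hZ1 : 1 ≤ Z := Nat.one_le_iff_ne_zero.2 (by positivity)
  have hcb : c * b = 2 ^ 19 * Z := by
    rw [hc, hb, hZ]
    ring
  have hcb2 : 4 * (c * b) ≤ n := by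
    by_contra hlt
    push Not at hlt
    have h1 : n * n < (4 * (c * b)) * (4 * (c * b)) := Nat.mul_self_lt_mul_self hlt
    have h2 : n ^ 2 = n * n := sq n
    have h3 : (4 * (c * b)) * (4 * (c * b)) ≤ 64 * (A * A) * 1 := by
      rw [hcb, hA]
      have : 4 * (2 ^ 19 * Z) ≤ 2 ^ 27 * m ^ 6 * L ^ 3 := by
        rw [hZ]
        calc 4 * (2 ^ 19 * (m ^ 4 * L ^ 2)) = 2 ^ 21 * (m ^ 4 * L ^ 2) := by ring
          _ ≤ 2 ^ 27 * (m ^ 6 * L ^ 3) := Nat.mul_le_mul (by norm_num)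
              (Nat.mul_le_mul (Nat.pow_le_pow_right hm1 (by norm_num))
                (Nat.pow_le_pow_right hL (by norm_num)))
          _ = _ := by ring
      calc _ ≤ (2 ^ 27 * m ^ 6 * L ^ 3) * (2 ^ 27 * m ^ 6 * L ^ 3) := Nat.mul_le_mul this this
        _ ≤ _ := by omega
    omega
  have hcb3 : c * b + 1 ≤ 2 ^ L := by
    have : 1 ≤ c * b := by
      rw [hcb]
      omega
    omega
  have hKL : c * b * (c * b) + 1 ≤ 2 ^ (2 * L) := by
    have h1 : (c * b + 1) * (c * b + 1) ≤ 2 ^ L * 2 ^ L := Nat.mul_le_mul hcb3 hcb3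
    have h2 : 2 ^ (2 * L) = 2 ^ L * 2 ^ L := by rw [two_mul, pow_add]
    have h3 : (c * b + 1) * (c * b + 1) = c * b * (c * b) + 2 * (c * b) + 1 := by ring
    omega
  have hm2 : 2 ≤ m := by
    refine le_trans ?_ hm
    have : 1 * 1 * 1 ≤ l * (D + 1) * L := Nat.mul_le_mul (Nat.mul_le_mul hl (by omega)) hL
    have e : 16 * l * (D + 1) * L = 16 * (l * (D + 1) * L) := by ring
    omega
  have hsz := size_le (K := c * b * (c * b)) (M := 2 ^ (2 * L * ((l + 1) * (D + 1)))) hL hl hm hs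
    hKL rfl
  have : NeZero (16 * m ^ 2) := ⟨by positivity⟩
  refine core (n := n) (c := c) (b := b) (t := t) (u := u) (r := S + 1) (a := a) (w := w) (s := s)
    (Q := 16 * m ^ 2) (m := 4 * m) (h := 16 * (m * L)) (l := l) (D := D) (by omega) ?_ ?_ ?_ ht
    ?_ ?_ ?_ hS2.le hw ?_
    (S := 2 ^ (4 * m)) (M := 2 ^ (2 * L * ((l + 1) * (D + 1)))) ?_ (le_refl _) hsz ?_ ?_ hs
    (F := F) ?_ hout ?_
  · have : 1 ≤ m * L := Nat.one_le_iff_ne_zero.2 (by positivity)
    omega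
  · exact le_of_eq (by ring)
  · rw [hb]
    exact le_of_eq (by ring)
  · rw [hcA]
    have h1 : 4 * (A * t) ≤ S := by
      calc 4 * (A * t) = 4 * A * t := by ring
        _ ≤ S := ht1
    omega
  · have : 2 ^ 16 * 1 ≤ 2 ^ 16 * Z := Nat.mul_le_mul_left _ hZ1
    have h2 : c * c = 2 ^ 16 * Z := by
      rw [hc, hZ]
      ring
    omega
  · rw [hcA]
    have h1 : 4 * (A * t) ≤ S := by
      calc 4 * (A * t) = 4 * A * t := by ring
        _ ≤ S := ht1
    have h2 : A * t + u ≤ S := by omega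
    calc (A * t + u) ^ 2 ≤ S ^ 2 := Nat.pow_le_pow_left h2 2
      _ = S * S := sq S
      _ ≤ a := hS1
  · have h1 : 2 * (16 * m ^ 2) * (L + 1) + 1 ≤ c := by
      have h2 : 1 ≤ m ^ 2 * L := Nat.one_le_iff_ne_zero.2 (by positivity)
      calc 2 * (16 * m ^ 2) * (L + 1) + 1 ≤ 2 * (16 * m ^ 2) * (L + L) + m ^ 2 * L :=
            Nat.add_le_add (Nat.mul_le_mul_left _ (by omega)) h2
        _ = 65 * (m ^ 2 * L) := by ring
        _ ≤ 2 ^ 8 * (m ^ 2 * L) := Nat.mul_le_mul_right _ (by norm_num)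
        _ = c := by
            rw [hc]
            ring
    have h3 := NP.clique_count (n := 4 * (c * b)) (k := c) (l := L) (Q := 16 * m ^ 2)
      (Nat.one_le_iff_ne_zero.2 (by positivity)) (hcb2.trans hnL) h1
    have h4 : 1 ≤ c := by omega
    have h5 : 8 ≤ 2 * 4 ^ c := by
      calc 8 = 2 * 4 ^ 1 := rfl
        _ ≤ 2 * 4 ^ c := Nat.mul_le_mul_left _ (Nat.pow_le_pow_right (by norm_num) h4)
    have h7 : ∀ y z : ℕ, 2 * (4 * y) ^ z = 2 * 4 ^ z * y ^ z := fun y z => by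
      rw [mul_pow, mul_assoc]
    have h6 : 2 * (4 * (c * b)) ^ c = 2 * 4 ^ c * (c * b) ^ c := h7 _ _
    rw [h6] at h3
    exact le_trans (Nat.mul_le_mul_right _ (Nat.mul_le_mul_right _ h5)) h3
  · calc (c * b * (c * b) + 1) ^ ((l + 1) * (D + 1)) ≤ (2 ^ (2 * L)) ^ ((l + 1) * (D + 1)) :=
          Nat.pow_le_pow_left hKL _
      _ = 2 ^ (2 * L * ((l + 1) * (D + 1))) := by rw [← pow_mul]
  · -- the first error term
    have h1 : (4 * m + 1) ^ 2 ≤ 2 ^ (8 * m) := by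
      have h2 : 4 * m + 1 ≤ 2 ^ (4 * m) := Nat.lt_two_pow_self
      calc (4 * m + 1) ^ 2 ≤ (2 ^ (4 * m)) ^ 2 := Nat.pow_le_pow_left h2 2
        _ = 2 ^ (8 * m) := by
            rw [← pow_mul]
            congr 1
            ring
    calc 8 * (2 ^ (4 * m) * ((4 * m + 1) ^ 2 * 2 ^ (4 * m)))
        ≤ 2 ^ 3 * (2 ^ (4 * m) * (2 ^ (8 * m) * 2 ^ (4 * m))) :=
          Nat.mul_le_mul (by norm_num) (Nat.mul_le_mul_left _ (Nat.mul_le_mul_right _ h1))
      _ = 2 ^ (3 + (4 * m + (8 * m + 4 * m))) := by rw [pow_add, pow_add, pow_add]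
      _ ≤ 2 ^ (5 * (4 * m + 1)) := Nat.pow_le_pow_right (by norm_num) (by omega)
      _ = 32 ^ (4 * m + 1) := by
          rw [pow_mul]
          norm_num
  · -- the second error term
    have h1 : m * 1 ≤ m * L := Nat.mul_le_mul_left _ hL
    calc 8 * (2 ^ (4 * m) * (c * b + 1) ^ (4 * m))
        ≤ 2 ^ 3 * (2 ^ (4 * m) * (2 ^ L) ^ (4 * m)) :=
          Nat.mul_le_mul (by norm_num) (Nat.mul_le_mul_left _ (Nat.pow_le_pow_left hcb3 _))
      _ = 2 ^ (3 + (4 * m + 4 * (m * L))) := by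
          rw [← pow_mul, pow_add, pow_add]
          congr 3
          ring
      _ ≤ 2 ^ (16 * (m * L)) := Nat.pow_le_pow_right (by norm_num) (by omega)
  · have e1 : c * b * (c * b) = 2 ^ 38 * m ^ 8 * L ^ 4 := by
      rw [hcb, hZ]
      ring
    rw [e1]
    exact hC
  · have e1 : c * b * (c * b) = 2 ^ 38 * m ^ 8 * L ^ 4 := by
      rw [hcb, hZ]
      ring
    rw [e1, ← hu]
    exact hF

end Pool.Agent.H66.OD3
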