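import Pool.Agent.H66.OD3.Thr

/-!
Slice functions (upper bound, part 3; Berkowitz).
-/

namespace Pool.Agent.H66.OD3

open Finset

variable {n : ℕ}

/-- More than `j` edges in `A`, or `j` edges in `A` and `f`. -/
def rest (A : Finset (Sym2 (Fin n))) (j : ℕ) (f : SimpleGraph (Fin n) → Prop) :
    SimpleGraph (Fin n) → Prop := fun G => j < cnt A G ∨ (cnt A G = j ∧ f G)

theorem rest_mono (A : Finset (Sym2 (Fin n))) (j : ℕ) {f : SimpleGraph (Fin n) → Prop}
    (hf : ∀ G H, G ≤ H → f G → f H) : ∀ G H, G ≤ H → rest A j f G → rest A j f H := by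
  intro G H h hG
  have h1 := cnt_mono A h
  rcases hG with hG | ⟨h2, h3⟩
  · exact Or.inl (lt_of_lt_of_le hG h1)
  · rcases Nat.lt_or_ge j (cnt A H) with h4 | h4
    · exact Or.inl h4
    · exact Or.inr ⟨by omega, hf G H h h3⟩

theorem slice_mono (j : ℕ) (f : SimpleGraph (Fin n) → Prop) :
    ∀ G H, G ≤ H → rest (nd n) j f G → rest (nd n) j f H := by
  intro G H h hG
  have h1 := cnt_mono (nd n) h
  rcases hG with hG | ⟨h2, h3⟩
  · exact Or.inl (lt_of_lt_of_le hG h1)
  · rcases Nat.lt_or_ge j (cnt (nd n) H) with h4 | h4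
    · exact Or.inl h4
    · have h5 : cnt (nd n) H = j := by omega
      have h6 : G = H := by
        apply SimpleGraph.edgeSet_injective
        refine Set.eq_of_subset_of_ncard_le (SimpleGraph.edgeSet_subset_edgeSet.2 h) ?_
          (Set.toFinite _)
        rw [← cnt_nd, ← cnt_nd, h5, h2]
      exact Or.inr ⟨h5, h6 ▸ h3⟩

variable {V : ℕ → Finset (Sym2 (Fin n))} {b w D N : ℕ} {P : Set ((SimpleGraph (Fin n) → Prop) × ℕ)}

theorem Slc_and {g : SimpleGraph (Fin n) → Prop} (hg : ∀ G H, G ≤ H → g G → g H)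
    (T : Set ((SimpleGraph (Fin n) → Prop) × ℕ)) (hT : T ⊆ P) (h0 : ∀ q ∈ T, q.2 = 0)
    (h : ∀ G, g G ↔ ∀ q ∈ T, q.1 G) : USimp V b w D P (g, 0) := by
  exact ⟨mono_outside hg, Nat.zero_le _, Or.inr ⟨T, hT, fun q hq => (h0 q hq).le, Or.inl h⟩⟩

theorem Slc_or {g : SimpleGraph (Fin n) → Prop} (hg : ∀ G H, G ≤ H → g G → g H)
    (T : Set ((SimpleGraph (Fin n) → Prop) × ℕ)) (hT : T ⊆ P) (h0 : ∀ q ∈ T, q.2 = 0)
    (h : ∀ G, g G ↔ ∃ q ∈ T, q.1 G) : USimp V b w D P (g, 0) := by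
  exact ⟨mono_outside hg, Nat.zero_le _, Or.inr ⟨T, hT, fun q hq => (h0 q hq).le, Or.inr h⟩⟩

theorem Slc_one {g g' : SimpleGraph (Fin n) → Prop} (hg : ∀ G H, G ≤ H → g G → g H)
    (hP : (g', 0) ∈ P) (h : ∀ G, g G ↔ g' G) : USimp V b w D P (g, 0) := by
  refine Slc_or hg {(g', 0)} (Set.singleton_subset_iff.2 hP) ?_ ?_
  · intro q hq
    rw [Set.mem_singleton_iff.1 hq]
  · intro G
    rw [h G]
    constructor
    · intro h1
      exact ⟨(g', 0), rfl, h1⟩
    · rintro ⟨q, hq, h1⟩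
      rw [Set.mem_singleton_iff.1 hq] at h1
      exact h1

theorem slc_lit (h : UC V b w D N P) (j : ℕ) (hinp : ∀ e ∈ nd n, (inp e, 0) ∈ P)
    (h0 : (τ (nd n) j, 0) ∈ P) (h1 : (τ (nd n) (j + 1), 0) ∈ P)
    (he : ∀ e ∈ nd n, (τ ((nd n).erase e) j, 0) ∈ P) :
    UC V b w D (N + 3 * (nd n).card) (P ∪ {p | ∃ e ∈ nd n, p = (rest (nd n) j (inp e), 0) ∨
      p = (rest (nd n) j (fun G => ¬ inp e G), 0)}) := by
  classical
  -- step 1
  have s1 := h.image (nd n) (fun e => ((fun G => inp e G ∧ τ (nd n) j G), 0)) (by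
    intro e hen
    refine Slc_and ?_ {(inp e, 0), (τ (nd n) j, 0)} ?_ ?_ ?_
    · intro G H hGH hG
      exact ⟨SimpleGraph.edgeSet_subset_edgeSet.2 hGH hG.1, le_trans hG.2 (cnt_mono _ hGH)⟩
    · intro q hq
      rcases hq with rfl | hq
      · exact hinp e hen
      · rw [Set.mem_singleton_iff.1 hq]
        exact h0
    · intro q hq
      rcases hq with rfl | hq
      · rfl
      · rw [Set.mem_singleton_iff.1 hq]
    · intro G
      constructor
      · rintro ⟨g1, g2⟩ q hq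
        rcases hq with rfl | hq
        · exact g1
        · rw [Set.mem_singleton_iff.1 hq]
          exact g2
      · intro g1
        exact ⟨g1 _ (Or.inl rfl), g1 _ (Or.inr rfl)⟩)
  -- step 2
  have s2 := s1.image (nd n) (fun e => (rest (nd n) j (inp e), 0)) (by
    intro e hen
    refine Slc_or (slice_mono j _) {(τ (nd n) (j + 1), 0),
      ((fun G => inp e G ∧ τ (nd n) j G), 0)} ?_ ?_ ?_
    · intro q hq
      rcases hq with rfl | hq
      · exact Or.inl h1
      · rw [Set.mem_singleton_iff.1 hq]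
        exact Or.inr ⟨e, hen, rfl⟩
    · intro q hq
      rcases hq with rfl | hq
      · rfl
      · rw [Set.mem_singleton_iff.1 hq]
    · intro G
      constructor
      · rintro (g1 | ⟨g1, g2⟩)
        · exact ⟨_, Or.inl rfl, g1⟩
        · exact ⟨_, Or.inr rfl, g2, g1.ge⟩
      · rintro ⟨q, hq, g1⟩
        rcases hq with rfl | hq
        · exact Or.inl g1
        · rw [Set.mem_singleton_iff.1 hq] at g1
          obtain ⟨g2, g3⟩ := g1
          have g4 : j ≤ cnt (nd n) G := g3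
          rcases Nat.lt_or_ge j (cnt (nd n) G) with g5 | g5
          · exact Or.inl g5
          · exact Or.inr ⟨by omega, g2⟩)
  -- step 3
  have s3 := s2.image (nd n) (fun e => (rest (nd n) j (fun G => ¬ inp e G), 0)) (by
    intro e hen
    refine Slc_or (slice_mono j _) {(τ (nd n) (j + 1), 0), (τ ((nd n).erase e) j, 0)} ?_ ?_ ?_
    · intro q hq
      rcases hq with rfl | hq
      · exact Or.inl (Or.inl h1)
      · rw [Set.mem_singleton_iff.1 hq]
        exact Or.inl (Or.inl (he e hen))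
    · intro q hq
      rcases hq with rfl | hq
      · rfl
      · rw [Set.mem_singleton_iff.1 hq]
    · intro G
      have hc := cnt_insert (notMem_erase e (nd n)) G
      rw [insert_erase hen] at hc
      constructor
      · rintro (g1 | ⟨g1, g2⟩)
        · exact ⟨_, Or.inl rfl, g1⟩
        · refine ⟨_, Or.inr rfl, ?_⟩
          have g2' : ¬ (e ∈ G.edgeSet) := g2
          rw [if_neg g2'] at hc
          show j ≤ cnt ((nd n).erase e) G
          omega
      · rintro ⟨q, hq, g1⟩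
        rcases hq with rfl | hq
        · exact Or.inl g1
        · rw [Set.mem_singleton_iff.1 hq] at g1
          have g2 : j ≤ cnt ((nd n).erase e) G := g1
          by_cases g3 : e ∈ G.edgeSet
          · rw [if_pos g3] at hc
            left
            omega
          · rw [if_neg g3] at hc
            rcases Nat.lt_or_ge j (cnt (nd n) G) with g5 | g5
            · exact Or.inl g5
            · exact Or.inr ⟨by omega, g3⟩)
  refine s3.mono (by omega) ?_
  rintro p (hp | ⟨e, hen, rfl | rfl⟩)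
  · exact Or.inl (Or.inl (Or.inl hp))
  · exact Or.inl (Or.inr ⟨e, hen, rfl⟩)
  · exact Or.inr ⟨e, hen, rfl⟩

theorem Slc_AND (j : ℕ) (h0 : (τ (nd n) j, 0) ∈ P) (J K : Finset ℕ)
    (a c : ℕ → SimpleGraph (Fin n) → Prop) (g : SimpleGraph (Fin n) → Prop)
    (hg : ∀ G, g G ↔ (∀ i ∈ J, a i G) ∧ ∀ i ∈ K, c i G)
    (hJ : ∀ i ∈ J, (rest (nd n) j (a i), 0) ∈ P) (hK : ∀ i ∈ K, (rest (nd n) j (c i), 0) ∈ P) :
    USimp V b w D P (rest (nd n) j g, 0) := by
  refine Slc_and (slice_mono j _) {q | q = (τ (nd n) j, 0) ∨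
    (∃ i ∈ J, q = (rest (nd n) j (a i), 0)) ∨ ∃ i ∈ K, q = (rest (nd n) j (c i), 0)} ?_ ?_ ?_
  · rintro q (rfl | ⟨i, hi, rfl⟩ | ⟨i, hi, rfl⟩)
    · exact h0
    · exact hJ i hi
    · exact hK i hi
  · rintro q (rfl | ⟨i, hi, rfl⟩ | ⟨i, hi, rfl⟩) <;> rfl
  · intro G
    constructor
    · rintro (g1 | ⟨g1, g2⟩) q (rfl | ⟨i, hi, rfl⟩ | ⟨i, hi, rfl⟩)
      · exact g1.le
      · exact Or.inl g1
      · exact Or.inl g1
      · exact g1.ge
      · exact Or.inr ⟨g1, ((hg G).1 g2).1 i hi⟩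
      · exact Or.inr ⟨g1, ((hg G).1 g2).2 i hi⟩
    · intro g1
      have g2 : j ≤ cnt (nd n) G := g1 _ (Or.inl rfl)
      rcases Nat.lt_or_ge j (cnt (nd n) G) with g3 | g3
      · exact Or.inl g3
      · have g4 : cnt (nd n) G = j := by omega
        refine Or.inr ⟨g4, (hg G).2 ⟨fun i hi => ?_, fun i hi => ?_⟩⟩
        · rcases g1 _ (Or.inr (Or.inl ⟨i, hi, rfl⟩)) with g5 | g5
          · omega
          · exact g5.2
        · rcases g1 _ (Or.inr (Or.inr ⟨i, hi, rfl⟩)) with g5 | g5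
          · omega
          · exact g5.2

theorem Slc_OR (j : ℕ) (h1 : (τ (nd n) (j + 1), 0) ∈ P) (J K : Finset ℕ)
    (a c : ℕ → SimpleGraph (Fin n) → Prop) (g : SimpleGraph (Fin n) → Prop)
    (hg : ∀ G, g G ↔ (∃ i ∈ J, a i G) ∨ ∃ i ∈ K, c i G)
    (hJ : ∀ i ∈ J, (rest (nd n) j (a i), 0) ∈ P) (hK : ∀ i ∈ K, (rest (nd n) j (c i), 0) ∈ P) :
    USimp V b w D P (rest (nd n) j g, 0) := by
  refine Slc_or (slice_mono j _) {q | q = (τ (nd n) (j + 1), 0) ∨
    (∃ i ∈ J, q = (rest (nd n) j (a i), 0)) ∨ ∃ i ∈ K, q = (rest (nd n) j (c i), 0)} ?_ ?_ ?_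
  · rintro q (rfl | ⟨i, hi, rfl⟩ | ⟨i, hi, rfl⟩)
    · exact h1
    · exact hJ i hi
    · exact hK i hi
  · rintro q (rfl | ⟨i, hi, rfl⟩ | ⟨i, hi, rfl⟩) <;> rfl
  · intro G
    constructor
    · rintro (g1 | ⟨g1, g2⟩)
      · exact ⟨_, Or.inl rfl, g1⟩
      · rcases (hg G).1 g2 with ⟨i, hi, g3⟩ | ⟨i, hi, g3⟩
        · exact ⟨_, Or.inr (Or.inl ⟨i, hi, rfl⟩), Or.inr ⟨g1, g3⟩⟩
        · exact ⟨_, Or.inr (Or.inr ⟨i, hi, rfl⟩), Or.inr ⟨g1, g3⟩⟩
    · rintro ⟨q, (rfl | ⟨i, hi, rfl⟩ | ⟨i, hi, rfl⟩), g1⟩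
      · exact Or.inl g1
      · rcases g1 with g1 | ⟨g1, g2⟩
        · exact Or.inl g1
        · exact Or.inr ⟨g1, (hg G).2 (Or.inl ⟨i, hi, g2⟩)⟩
      · rcases g1 with g1 | ⟨g1, g2⟩
        · exact Or.inl g1
        · exact Or.inr ⟨g1, (hg G).2 (Or.inr ⟨i, hi, g2⟩)⟩

/-- a property which is constant, an input or the negation of an input -/
theorem Slc_test (j : ℕ) (h0 : (τ (nd n) j, 0) ∈ P) (h1 : (τ (nd n) (j + 1), 0) ∈ P)
    (hlit : ∀ e ∈ nd n, (rest (nd n) j (inp e), 0) ∈ P ∧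
      (rest (nd n) j (fun G => ¬ inp e G), 0) ∈ P)
    (g : SimpleGraph (Fin n) → Prop)
    (hg : (∀ G, g G) ∨ (∀ G, ¬ g G) ∨ ∃ e ∈ nd n, (∀ G, g G ↔ inp e G) ∨ ∀ G, g G ↔ ¬ inp e G) :
    USimp V b w D P (rest (nd n) j g, 0) := by
  rcases hg with hg | hg | ⟨e, he, hg | hg⟩
  · refine Slc_one (slice_mono j _) h0 fun G => ?_
    constructor
    · rintro (g1 | ⟨g1, g2⟩)
      · exact g1.le
      · exact g1.ge
    · intro g1
      have g2 : j ≤ cnt (nd n) G := g1
      rcases Nat.lt_or_ge j (cnt (nd n) G) with g3 | g3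
      · exact Or.inl g3
      · exact Or.inr ⟨by omega, hg G⟩
  · refine Slc_one (slice_mono j _) h1 fun G => ?_
    constructor
    · rintro (g1 | ⟨g1, g2⟩)
      · exact g1
      · exact absurd g2 (hg G)
    · intro g1
      exact Or.inl g1
  · refine Slc_one (slice_mono j _) (hlit e he).1 fun G => ?_
    show (_ ∨ _) ↔ (_ ∨ _)
    rw [hg G]
  · refine Slc_one (slice_mono j _) (hlit e he).2 fun G => ?_
    show (_ ∨ _) ↔ (_ ∨ _)
    rw [hg G]

theorem Slc_cases (g : SimpleGraph (Fin n) → Prop) (R : Finset (Sym2 (Fin n))) (hR : R.card ≤ 1)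
    (hg : ∀ G H : SimpleGraph (Fin n), (∀ e ∈ R, e ∈ G.edgeSet ↔ e ∈ H.edgeSet) → (g G ↔ g H)) :
    (∀ G, g G) ∨ (∀ G, ¬ g G) ∨ ∃ e ∈ nd n, (∀ G, g G ↔ inp e G) ∨ ∀ G, g G ↔ ¬ inp e G := by
  classical
  by_cases hex : ∃ e ∈ R, e ∈ nd n
  · obtain ⟨e, heR, hen⟩ := hex
    have hRe : ∀ e' ∈ R, e' = e := fun e' he' => Finset.card_le_one.1 hR e' he' e heR
    have hnd : ¬ e.IsDiag := by
      have := hen
      unfold nd at this
      exact (Finset.mem_filter.1 this).2
    have htop : e ∈ (⊤ : SimpleGraph (Fin n)).edgeSet := by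
      rw [SimpleGraph.edgeSet_top]
      exact hnd
    have hbot : e ∉ (⊥ : SimpleGraph (Fin n)).edgeSet := by
      rw [SimpleGraph.edgeSet_bot]
      exact Set.notMem_empty _
    have hin : ∀ G : SimpleGraph (Fin n), e ∈ G.edgeSet → (g G ↔ g ⊤) := by
      intro G hG
      apply hg
      intro e' he'
      rw [hRe e' he']
      exact ⟨fun _ => htop, fun _ => hG⟩
    have hout : ∀ G : SimpleGraph (Fin n), e ∉ G.edgeSet → (g G ↔ g ⊥) := by
      intro G hG
      apply hg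
      intro e' he'
      rw [hRe e' he']
      exact ⟨fun h => absurd h hG, fun h => absurd h hbot⟩
    by_cases ht : g ⊤
    · by_cases hb : g ⊥
      · left
        intro G
        by_cases hG : e ∈ G.edgeSet
        · exact (hin G hG).2 ht
        · exact (hout G hG).2 hb
      · right; right
        refine ⟨e, hen, Or.inl fun G => ?_⟩
        constructor
        · intro h
          by_contra hG
          exact hb ((hout G hG).1 h)
        · intro hG
          exact (hin G hG).2 ht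
    · by_cases hb : g ⊥
      · right; right
        refine ⟨e, hen, Or.inr fun G => ?_⟩
        constructor
        · intro h hG
          exact ht ((hin G hG).1 h)
        · intro hG
          exact (hout G hG).2 hb
      · right; left
        intro G h
        by_cases hG : e ∈ G.edgeSet
        · exact ht ((hin G hG).1 h)
        · exact hb ((hout G hG).1 h)
  · push Not at hex
    have hd : ∀ e ∈ R, ∀ G : SimpleGraph (Fin n), e ∉ G.edgeSet := by
      intro e he G hG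
      apply hex e he
      unfold nd
      exact Finset.mem_filter.2 ⟨Finset.mem_univ _, G.not_isDiag_of_mem_edgeSet hG⟩
    have hc : ∀ G H : SimpleGraph (Fin n), g G ↔ g H := fun G H => hg G H fun e he =>
      ⟨fun h => absurd h (hd e he G), fun h => absurd h (hd e he H)⟩
    by_cases hb : g ⊥
    · exact Or.inl fun G => (hc G ⊥).2 hb
    · exact Or.inr (Or.inl fun G h => hb ((hc G ⊥).1 h))

theorem slc (h : UC V b w D N P) (j : ℕ) (h0 : (τ (nd n) j, 0) ∈ P)
    (h1 : (τ (nd n) (j + 1), 0) ∈ P)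
    (hlit : ∀ e ∈ nd n, (rest (nd n) j (inp e), 0) ∈ P ∧
      (rest (nd n) j (fun G => ¬ inp e G), 0) ∈ P)
    {s : ℕ} {f : ℕ → SimpleGraph (Fin n) → Prop} {Wire : ℕ → ℕ → Prop}
    (hf : ∀ i < s, Gate 1 Wire f i) (t : ℕ) (ht : t ≤ s) :
    UC V b w D (N + 2 * t) (P ∪ {p | ∃ i < t, p = (rest (nd n) j (f i), 0) ∨
      p = (rest (nd n) j (fun G => ¬ f i G), 0)}) := by
  classical
  induction t with
  | zero =>
    refine h.mono (by omega) ?_
    rintro p (hp | ⟨i, hi, -⟩)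
    · exact hp
    · exact absurd hi (Nat.not_lt_zero i)
  | succ t ih =>
    have ih' := ih (by omega)
    set P' : Set ((SimpleGraph (Fin n) → Prop) × ℕ) := P ∪ {p | ∃ i < t,
      p = (rest (nd n) j (f i), 0) ∨ p = (rest (nd n) j (fun G => ¬ f i G), 0)} with hP'
    have h0' : (τ (nd n) j, 0) ∈ P' := Or.inl h0
    have h1' : (τ (nd n) (j + 1), 0) ∈ P' := Or.inl h1
    have hlit' : ∀ e ∈ nd n, (rest (nd n) j (inp e), 0) ∈ P' ∧
      (rest (nd n) j (fun G => ¬ inp e G), 0) ∈ P' :=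
      fun e he => ⟨Or.inl (hlit e he).1, Or.inl (hlit e he).2⟩
    have hpos : ∀ i < t, (rest (nd n) j (f i), 0) ∈ P' := fun i hi => Or.inr ⟨i, hi, Or.inl rfl⟩
    have hneg : ∀ i < t, (rest (nd n) j (fun G => ¬ f i G), 0) ∈ P' :=
      fun i hi => Or.inr ⟨i, hi, Or.inr rfl⟩
    have key : USimp V b w D P' (rest (nd n) j (f t), 0) ∧
        USimp V b w D P' (rest (nd n) j (fun G => ¬ f t G), 0) := by
      rcases hf t (by omega) with ⟨R, hR, hRf⟩ | ⟨J, K, hJ, hK, hand | hor⟩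
      · have hc := Slc_cases (f t) R hR hRf
        refine ⟨Slc_test j h0' h1' hlit' _ hc, Slc_test j h0' h1' hlit' _ ?_⟩
        rcases hc with hc | hc | ⟨e, he, hc | hc⟩
        · exact Or.inr (Or.inl fun G hG => hG (hc G))
        · exact Or.inl fun G => hc G
        · refine Or.inr (Or.inr ⟨e, he, Or.inr fun G => ?_⟩)
          rw [hc G]
        · refine Or.inr (Or.inr ⟨e, he, Or.inl fun G => ?_⟩)
          rw [hc G, not_not]
      · refine ⟨Slc_AND j h0' J K f (fun i G => ¬ f i G) _ hand (fun i hi => hpos i (hJ i hi).1)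
          (fun i hi => hneg i (hK i hi)), Slc_OR j h1' J K (fun i G => ¬ f i G) f _ ?_
          (fun i hi => hneg i (hJ i hi).1) (fun i hi => hpos i (hK i hi))⟩
        intro G
        rw [hand G]
        constructor
        · intro hcon
          by_contra hno
          push Not at hno
          exact hcon ⟨fun i hi => hno.1 i hi, fun i hi => hno.2 i hi⟩
        · rintro (⟨i, hi, g1⟩ | ⟨i, hi, g1⟩) hcon
          · exact g1 (hcon.1 i hi)
          · exact hcon.2 i hi g1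
      · refine ⟨Slc_OR j h1' J K f (fun i G => ¬ f i G) _ hor (fun i hi => hpos i (hJ i hi).1)
          (fun i hi => hneg i (hK i hi)), Slc_AND j h0' J K (fun i G => ¬ f i G) f _ ?_
          (fun i hi => hneg i (hJ i hi).1) (fun i hi => hpos i (hK i hi))⟩
        intro G
        rw [hor G]
        constructor
        · intro hcon
          refine ⟨fun i hi g1 => hcon (Or.inl ⟨i, hi, g1⟩), fun i hi => ?_⟩
          by_contra g1
          exact hcon (Or.inr ⟨i, hi, g1⟩)
        · rintro ⟨g1, g2⟩ (⟨i, hi, g3⟩ | ⟨i, hi, g3⟩)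
          · exact g1 i hi g3
          · exact g3 (g2 i hi)
    have u1 := ih'.add key.1
    have u2 := u1.add (key.2.mono (Set.subset_insert _ _))
    refine u2.mono (by omega) ?_
    rintro p (hp | ⟨i, hi, hp⟩)
    · exact Or.inr (Or.inr (Or.inl hp))
    · rcases Nat.lt_succ_iff_lt_or_eq.1 hi with hi' | rfl
      · exact Or.inr (Or.inr (Or.inr ⟨i, hi', hp⟩))
      · rcases hp with rfl | rfl
        · exact Or.inr (Or.inl rfl)
        · exact Or.inl rfl

end Pool.Agent.H66.OD3
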