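import Pool.Agent.H66.OD3.Ucl

/-!
Thresholds (upper bound, part 2).
-/

namespace Pool.Agent.H66.OD3

open Finset

variable {n : ℕ}

open Classical in
/-- The number of edges of `G` in `A`. -/
noncomputable def cnt (A : Finset (Sym2 (Fin n))) (G : SimpleGraph (Fin n)) : ℕ :=
  (A.filter fun e => e ∈ G.edgeSet).card

/-- Threshold. -/
def τ (A : Finset (Sym2 (Fin n))) (j : ℕ) : SimpleGraph (Fin n) → Prop := fun G => j ≤ cnt A G

open Classical in
/-- All pairs of different vertices. -/
noncomputable def nd (n : ℕ) : Finset (Sym2 (Fin n)) := univ.filter fun e => ¬ e.IsDiag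

/-- Adjacency of the pair `e`. -/
def inp (e : Sym2 (Fin n)) : SimpleGraph (Fin n) → Prop := fun G => e ∈ G.edgeSet

theorem cnt_mono (A : Finset (Sym2 (Fin n))) {G H : SimpleGraph (Fin n)} (h : G ≤ H) :
    cnt A G ≤ cnt A H := by
  classical
  unfold cnt
  apply Finset.card_le_card
  intro e he
  rw [Finset.mem_filter] at he ⊢
  exact ⟨he.1, SimpleGraph.edgeSet_mono h he.2⟩

theorem cnt_insert {A : Finset (Sym2 (Fin n))} {e : Sym2 (Fin n)} (he : e ∉ A)
    (G : SimpleGraph (Fin n)) [Decidable (e ∈ G.edgeSet)] :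
    cnt (insert e A) G = cnt A G + if e ∈ G.edgeSet then 1 else 0 := by
  classical
  unfold cnt
  rw [Finset.filter_insert]
  by_cases h : e ∈ G.edgeSet
  · rw [if_pos h, if_pos h, Finset.card_insert_of_notMem]
    intro h'
    exact he (Finset.mem_filter.1 h').1
  · rw [if_neg h, if_neg h, add_zero]

theorem cnt_sdiff {A B : Finset (Sym2 (Fin n))} (h : B ⊆ A) (G : SimpleGraph (Fin n)) :
    cnt A G = cnt B G + cnt (A \ B) G := by
  classical
  unfold cnt
  rw [← Finset.card_union_of_disjoint, ← Finset.filter_union, Finset.union_sdiff_of_subset h]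
  exact Finset.disjoint_filter_filter Finset.disjoint_sdiff

theorem Thr_filter (G : SimpleGraph (Fin n)) (e : Sym2 (Fin n)) (he : e ∈ G.edgeSet) :
    e ∈ nd n := by
  classical
  unfold nd
  rw [Finset.mem_filter]
  exact ⟨Finset.mem_univ _, G.not_isDiag_of_mem_edgeSet he⟩

theorem cnt_nd (G : SimpleGraph (Fin n)) : cnt (nd n) G = G.edgeSet.ncard := by
  classical
  unfold cnt
  rw [← Set.ncard_coe_finset]
  congr 1
  ext e
  rw [Finset.mem_coe, Finset.mem_filter]
  exact ⟨fun h => h.2, fun h => ⟨Thr_filter G e h, h⟩⟩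

theorem card_nd (n : ℕ) : (nd n).card = n.choose 2 := by
  classical
  have h := Sym2.card_subtype_not_diag (α := Fin n)
  rw [Fintype.card_fin] at h
  rw [← h, Fintype.card_subtype]
  unfold nd
  congr 1

theorem cnt_le (A : Finset (Sym2 (Fin n))) (G : SimpleGraph (Fin n)) :
    cnt A G ≤ n.choose 2 := by
  classical
  rw [← card_nd n]
  unfold cnt
  apply Finset.card_le_card
  intro e he
  rw [Finset.mem_filter] at he
  exact Thr_filter G e he.2

variable {V : ℕ → Finset (Sym2 (Fin n))} {b w D N : ℕ} {P : Set ((SimpleGraph (Fin n) → Prop) × ℕ)}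

theorem Thr_us {f : SimpleGraph (Fin n) → Prop} (hf : ∀ G H, G ≤ H → f G → f H)
    (h : (∃ R : Finset (Sym2 (Fin n)), R.card ≤ w ∧ ∀ G H : SimpleGraph (Fin n),
      (∀ e ∈ R, e ∈ G.edgeSet ↔ e ∈ H.edgeSet) → (f G ↔ f H)) ∨
    (∃ T ⊆ P, (∀ q ∈ T, q.2 = 0) ∧
      ((∀ G, f G ↔ ∀ q ∈ T, q.1 G) ∨ (∀ G, f G ↔ ∃ q ∈ T, q.1 G)))) :
    USimp V b w D P (f, 0) := by
  refine ⟨mono_outside hf, Nat.zero_le _, ?_⟩
  rcases h with h | ⟨T, hT, h0, h1⟩
  · exact Or.inl h
  · exact Or.inr ⟨T, hT, fun q hq => (h0 q hq).le, h1⟩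

theorem Thr_inp (e : Sym2 (Fin n)) (G H : SimpleGraph (Fin n)) (h : G ≤ H) (hG : inp e G) :
    inp e H := SimpleGraph.edgeSet_mono h hG

theorem Thr_tau (A : Finset (Sym2 (Fin n))) (j : ℕ) (G H : SimpleGraph (Fin n)) (h : G ≤ H)
    (hG : τ A j G) : τ A j H := le_trans (show j ≤ cnt A G from hG) (cnt_mono A h)

theorem inputs (hr : 1 ≤ w) (h : UC V b w D N P) (A : Finset (Sym2 (Fin n))) :
    UC V b w D (N + A.card) (P ∪ {p | ∃ e ∈ A, p = (inp e, 0)}) := by
  refine (h.image A (fun e => (inp e, 0)) (fun e _ => ?_)).mono le_rfl ?_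
  · refine Thr_us (Thr_inp e) (Or.inl ⟨{e}, by rw [Finset.card_singleton]; exact hr,
      fun G H hGH => ?_⟩)
    exact hGH e (Finset.mem_singleton_self e)
  · apply Set.union_subset_union_right
    rintro p ⟨e, he, rfl⟩
    exact ⟨e, he, rfl⟩

theorem Thr_step (M : ℕ) (A : Finset (Sym2 (Fin n))) (e : Sym2 (Fin n)) (he : e ∉ A)
    (hP : (inp e, 0) ∈ P) (hA : ∀ j ≤ M, (τ A j, 0) ∈ P) (h : UC V b w D N P) :
    UC V b w D (N + (M + 1) + (M + 1)) (P ∪ {p | ∃ j ≤ M, p = (τ (insert e A) j, 0)}) := by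
  classical
  have h1 := h.image (Finset.range (M + 1))
    (fun j => ((fun G => inp e G ∧ τ A (j - 1) G), 0)) (fun j hj => by
      have hj' : j ≤ M := Nat.lt_succ_iff.1 (Finset.mem_range.1 hj)
      refine Thr_us (fun G H hGH hG => ⟨Thr_inp e G H hGH hG.1, Thr_tau A _ G H hGH hG.2⟩)
        (Or.inr ⟨{(inp e, 0), (τ A (j - 1), 0)}, ?_, ?_, Or.inl fun G => ?_⟩)
      · intro q hq
        rcases hq with rfl | hq
        · exact hP
        · rw [Set.mem_singleton_iff] at hq
          subst hq
          exact hA _ (le_trans (Nat.sub_le _ _) hj')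
      · intro q hq
        rcases hq with rfl | hq
        · rfl
        · rw [Set.mem_singleton_iff] at hq
          subst hq
          rfl
      · constructor
        · rintro ⟨hG1, hG2⟩ q hq
          rcases hq with rfl | hq
          · exact hG1
          · rw [Set.mem_singleton_iff] at hq
            subst hq
            exact hG2
        · intro hq
          exact ⟨hq (inp e, 0) (Or.inl rfl), hq (τ A (j - 1), 0) (Or.inr rfl)⟩)
  have h2 := h1.image (Finset.range (M + 1))
    (fun j => (τ (insert e A) j, 0)) (fun j hj => by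
      have hj' : j ≤ M := Nat.lt_succ_iff.1 (Finset.mem_range.1 hj)
      refine Thr_us (Thr_tau (insert e A) j)
        (Or.inr ⟨{(τ A j, 0), ((fun G => inp e G ∧ τ A (j - 1) G), 0)}, ?_, ?_,
          Or.inr fun G => ?_⟩)
      · intro q hq
        rcases hq with rfl | hq
        · exact Or.inl (hA j hj')
        · rw [Set.mem_singleton_iff] at hq
          subst hq
          exact Or.inr ⟨j, hj, rfl⟩
      · intro q hq
        rcases hq with rfl | hq
        · rfl
        · rw [Set.mem_singleton_iff] at hq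
          subst hq
          rfl
      · have hc := cnt_insert he G
        have key : τ (insert e A) j G ↔ τ A j G ∨ (inp e G ∧ τ A (j - 1) G) := by
          show j ≤ cnt (insert e A) G ↔ j ≤ cnt A G ∨ (e ∈ G.edgeSet ∧ j - 1 ≤ cnt A G)
          rw [hc]
          by_cases hG : e ∈ G.edgeSet
          · rw [if_pos hG]
            constructor
            · intro hj2
              exact Or.inr ⟨hG, by omega⟩
            · rintro (hj2 | ⟨_, hj2⟩) <;> omega
          · rw [if_neg hG]
            constructor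
            · intro hj2
              exact Or.inl (by omega)
            · rintro (hj2 | ⟨hj2, _⟩)
              · omega
              · exact absurd hj2 hG
        rw [key]
        constructor
        · rintro (h3 | h3)
          · exact ⟨(τ A j, 0), Or.inl rfl, h3⟩
          · exact ⟨((fun G => inp e G ∧ τ A (j - 1) G), 0), Or.inr rfl, h3⟩
        · rintro ⟨q, hq, hqG⟩
          rcases hq with rfl | hq
          · exact Or.inl hqG
          · rw [Set.mem_singleton_iff] at hq
            subst hq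
            exact Or.inr hqG)
  rw [Finset.card_range] at h2
  refine h2.mono le_rfl ?_
  rintro p (hp | ⟨j, hj, rfl⟩)
  · exact Or.inl (Or.inl hp)
  · exact Or.inr ⟨j, Finset.mem_coe.2 (Finset.mem_range.2 (Nat.lt_succ_iff.2 hj)), rfl⟩

theorem thr (h : UC V b w D N P) (M : ℕ) (A : Finset (Sym2 (Fin n)))
    (hA : ∀ e ∈ A, (inp e, 0) ∈ P) :
    UC V b w D (N + (M + 1) * (2 * A.card + 1)) (P ∪ {p | ∃ j ≤ M, p = (τ A j, 0)}) := by
  classical
  induction A using Finset.induction_on with
  | empty =>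
    have h1 := h.image (Finset.range (M + 1)) (fun j => (τ ∅ j, 0)) (fun j _ => by
      refine Thr_us (Thr_tau ∅ j) (Or.inl ⟨∅, by simp, fun G H _ => ?_⟩)
      have hz : ∀ K : SimpleGraph (Fin n), cnt ∅ K = 0 := by
        intro K
        simp [cnt]
      show j ≤ cnt ∅ G ↔ j ≤ cnt ∅ H
      rw [hz, hz])
    rw [Finset.card_range] at h1
    refine h1.mono (by simp) ?_
    apply Set.union_subset_union_right
    rintro p ⟨j, hj, rfl⟩
    exact ⟨j, Finset.mem_coe.2 (Finset.mem_range.2 (Nat.lt_succ_iff.2 hj)), rfl⟩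
  | insert e A he ih =>
    have h1 := ih fun e' he' => hA e' (Finset.mem_insert_of_mem he')
    have h2 := Thr_step M A e he (Or.inl (hA e (Finset.mem_insert_self e A)))
      (fun j hj => Or.inr ⟨j, hj, rfl⟩) h1
    refine h2.mono ?_ ?_
    · rw [Finset.card_insert_of_notMem he]
      apply le_of_eq
      ring
    · rintro p (hp | hp)
      · exact Or.inl (Or.inl hp)
      · exact Or.inr hp

end Pool.Agent.H66.OD3
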