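import Pool.Agent.H66.OD3.Defs

/-!
Sets of graph properties computed by one restricted circuit (upper bound, part 1).
-/

namespace Pool.Agent.H66.OD3

open Finset

variable {n : ℕ}

/-- The conditions on gate `i`. -/
def OK (V : ℕ → Finset (Sym2 (Fin n))) (b w D : ℕ) (f : ℕ → SimpleGraph (Fin n) → Prop)
    (lev : ℕ → ℕ) (i : ℕ) : Prop :=
  MonoOutside 0 b (V (lev i)) (f i) ∧ lev i ≤ D ∧ Gate w (fun j i => lev j ≤ lev i) f i

/-- A restricted circuit with at most `N` gates contains all the pairs (gate, level) in `P`. -/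
def UC (V : ℕ → Finset (Sym2 (Fin n))) (b w D N : ℕ)
    (P : Set ((SimpleGraph (Fin n) → Prop) × ℕ)) : Prop :=
  ∃ m ≤ N, ∃ (f : ℕ → SimpleGraph (Fin n) → Prop) (lev : ℕ → ℕ),
    (∀ i < m, OK V b w D f lev i) ∧ ∀ p ∈ P, ∃ i < m, (f i, lev i) = p

/-- The pair `p` may be added to a circuit containing `P`. -/
def USimp (V : ℕ → Finset (Sym2 (Fin n))) (b w D : ℕ)
    (P : Set ((SimpleGraph (Fin n) → Prop) × ℕ)) (p : (SimpleGraph (Fin n) → Prop) × ℕ) : Prop :=
  MonoOutside 0 b (V p.2) p.1 ∧ p.2 ≤ D ∧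
  ((∃ R : Finset (Sym2 (Fin n)), R.card ≤ w ∧ ∀ G H : SimpleGraph (Fin n),
      (∀ e ∈ R, e ∈ G.edgeSet ↔ e ∈ H.edgeSet) → (p.1 G ↔ p.1 H)) ∨
    (∃ T ⊆ P, (∀ q ∈ T, q.2 ≤ p.2) ∧
      ((∀ G, p.1 G ↔ ∀ q ∈ T, q.1 G) ∨ (∀ G, p.1 G ↔ ∃ q ∈ T, q.1 G))))

variable {V : ℕ → Finset (Sym2 (Fin n))} {b w D N N' : ℕ}
  {P P' : Set ((SimpleGraph (Fin n) → Prop) × ℕ)}

theorem mono_outside {a : ℕ} {W : Finset (Sym2 (Fin n))} {f : SimpleGraph (Fin n) → Prop}
    (h : ∀ G H, G ≤ H → f G → f H) : MonoOutside a b W f :=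
  fun G H _ _ hGH _ hG => h G H hGH hG

theorem UC.empty : UC V b w D 0 (∅ : Set ((SimpleGraph (Fin n) → Prop) × ℕ)) :=
  ⟨0, le_rfl, fun _ _ => False, fun _ => 0, fun i hi => absurd hi (by omega),
    fun p hp => absurd hp (Set.notMem_empty p)⟩

theorem UC.mono (h : UC V b w D N P) (hN : N ≤ N') (hP : P' ⊆ P) : UC V b w D N' P' := by
  obtain ⟨m, hm, f, lev, hf, hg⟩ := h
  exact ⟨m, hm.trans hN, f, lev, hf, fun p hp => hg p (hP hp)⟩

theorem USimp.mono {p : (SimpleGraph (Fin n) → Prop) × ℕ} (hP : P ⊆ P')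
    (h : USimp V b w D P p) : USimp V b w D P' p := by
  obtain ⟨h1, h2, h3⟩ := h
  refine ⟨h1, h2, ?_⟩
  rcases h3 with h3 | ⟨T, hT, h3⟩
  · exact Or.inl h3
  · exact Or.inr ⟨T, hT.trans hP, h3⟩

theorem ucl_congr {f f' : ℕ → SimpleGraph (Fin n) → Prop} {lev lev' : ℕ → ℕ} {i : ℕ}
    (h1 : ∀ j ≤ i, f' j = f j) (h2 : ∀ j ≤ i, lev' j = lev j) (h : OK V b w D f lev i) :
    OK V b w D f' lev' i := by
  obtain ⟨a, c, g⟩ := h
  refine ⟨by rw [h1 i le_rfl, h2 i le_rfl]; exact a, by rw [h2 i le_rfl]; exact c, ?_⟩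
  rcases g with ⟨R, hR, h⟩ | ⟨J, K, hJ, hK, h⟩
  · left
    refine ⟨R, hR, fun G H e => ?_⟩
    rw [h1 i le_rfl]
    exact h G H e
  · right
    refine ⟨J, K, fun j hj => ⟨(hJ j hj).1, ?_⟩, hK, ?_⟩
    · show lev' j ≤ lev' i
      rw [h2 j (hJ j hj).1.le, h2 i le_rfl]
      exact (hJ j hj).2
    · have eJ : ∀ j ∈ J, f' j = f j := fun j hj => h1 j (hJ j hj).1.le
      have eK : ∀ j ∈ K, f' j = f j := fun j hj => h1 j (hK j hj).le
      rcases h with h | h
      · left
        intro G
        rw [h1 i le_rfl, h G]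
        refine and_congr (forall_congr' fun j => forall_congr' fun hj => ?_)
          (forall_congr' fun j => forall_congr' fun hj => ?_)
        · rw [eJ j hj]
        · rw [eK j hj]
      · right
        intro G
        rw [h1 i le_rfl, h G]
        refine or_congr (exists_congr fun j => and_congr_right fun hj => ?_)
          (exists_congr fun j => and_congr_right fun hj => ?_)
        · rw [eJ j hj]
        · rw [eK j hj]

theorem UC.add (h : UC V b w D N P) {p : (SimpleGraph (Fin n) → Prop) × ℕ}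
    (hp : USimp V b w D P p) : UC V b w D (N + 1) (insert p P) := by
  classical
  obtain ⟨m, hm, f, lev, hf, hP⟩ := h
  obtain ⟨p1, p2, p3⟩ := hp
  let f' : ℕ → SimpleGraph (Fin n) → Prop := fun i => if i = m then p.1 else f i
  let lev' : ℕ → ℕ := fun i => if i = m then p.2 else lev i
  have h1 : ∀ i < m, f' i = f i := fun i hi => if_neg (by omega)
  have h2 : f' m = p.1 := if_pos rfl
  have g1 : ∀ i < m, lev' i = lev i := fun i hi => if_neg (by omega)
  have g2 : lev' m = p.2 := if_pos rfl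
  refine ⟨m + 1, by omega, f', lev', ?_, ?_⟩
  · intro i hi
    rcases Nat.lt_succ_iff_lt_or_eq.1 hi with hlt | rfl
    · exact ucl_congr (fun j hj => h1 j (by omega)) (fun j hj => g1 j (by omega)) (hf i hlt)
    · refine ⟨by rw [h2, g2]; exact p1, by rw [g2]; exact p2, ?_⟩
      rcases p3 with ⟨R, hR, h⟩ | ⟨T, hTP, hT, h⟩
      · left
        refine ⟨R, hR, fun G H e => ?_⟩
        rw [h2]
        exact h G H e
      · right
        have e1 : ∀ j ∈ (range i).filter fun j => (f j, lev j) ∈ T, j < i := fun j hj =>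
          Finset.mem_range.1 (Finset.mem_filter.1 hj).1
        have e2 : ∀ j ∈ (range i).filter fun j => (f j, lev j) ∈ T, (f j, lev j) ∈ T :=
          fun j hj => (Finset.mem_filter.1 hj).2
        have e3 : ∀ q ∈ T, ∃ j ∈ (range i).filter fun j => (f j, lev j) ∈ T, (f j, lev j) = q := by
          intro q hq
          obtain ⟨j, hj, e⟩ := hP q (hTP hq)
          exact ⟨j, Finset.mem_filter.2 ⟨Finset.mem_range.2 hj, by rw [e]; exact hq⟩, e⟩
        refine ⟨(range i).filter fun j => (f j, lev j) ∈ T, ∅, fun j hj => ⟨e1 j hj, ?_⟩,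
          fun j hj => absurd hj (Finset.notMem_empty j), ?_⟩
        · show lev' j ≤ lev' i
          rw [g1 j (e1 j hj), g2]
          exact hT _ (e2 j hj)
        · rcases h with h | h
          · left
            intro G
            rw [h2, h G]
            constructor
            · intro h'
              refine ⟨fun j hj => ?_, fun j hj => absurd hj (Finset.notMem_empty j)⟩
              rw [h1 j (e1 j hj)]
              exact h' _ (e2 j hj)
            · rintro ⟨h', -⟩ q hq
              obtain ⟨j, hj, rfl⟩ := e3 q hq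
              have := h' j hj
              rwa [h1 j (e1 j hj)] at this
          · right
            intro G
            rw [h2, h G]
            constructor
            · rintro ⟨q, hq, hx⟩
              obtain ⟨j, hj, rfl⟩ := e3 q hq
              refine Or.inl ⟨j, hj, ?_⟩
              rw [h1 j (e1 j hj)]
              exact hx
            · rintro (⟨j, hj, hx⟩ | ⟨j, hj, -⟩)
              · rw [h1 j (e1 j hj)] at hx
                exact ⟨_, e2 j hj, hx⟩
              · exact absurd hj (Finset.notMem_empty j)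
  · intro k hk
    rcases Set.mem_insert_iff.1 hk with rfl | hk
    · exact ⟨m, by omega, by rw [h2, g2]⟩
    · obtain ⟨j, hj, e⟩ := hP k hk
      exact ⟨j, by omega, by rw [h1 j hj, g1 j hj, e]⟩

theorem UC.image {ι : Type} (h : UC V b w D N P) (A : Finset ι)
    (g : ι → (SimpleGraph (Fin n) → Prop) × ℕ) (hg : ∀ i ∈ A, USimp V b w D P (g i)) :
    UC V b w D (N + A.card) (P ∪ g '' A) := by
  classical
  induction A using Finset.induction_on with
  | empty => simpa using h
  | insert a A ha ih =>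
    have h1 := ih fun i hi => hg i (Finset.mem_insert_of_mem hi)
    have h2 := h1.add ((hg a (Finset.mem_insert_self a A)).mono Set.subset_union_left)
    rw [Finset.card_insert_of_notMem ha, ← add_assoc]
    refine h2.mono (le_refl _) ?_
    rw [Finset.coe_insert, Set.image_insert_eq]
    intro k hk
    rcases hk with hk | hk | hk
    · exact Or.inr (Or.inl hk)
    · exact Or.inl hk
    · exact Or.inr (Or.inr hk)

theorem UC.computes (hV : ∀ v, (V v).card ≤ w) (h : UC V b w D N P) {D' N' : ℕ} (hD : D ≤ D')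
    (hN : N ≤ N') {g : SimpleGraph (Fin n) → Prop} {v : ℕ} (hg : (g, v) ∈ P) :
    ∃ f : ℕ → SimpleGraph (Fin n) → Prop, AlmostMonotone 0 b w D' N' f ∧
      ∃ i < N', f i = g := by
  classical
  obtain ⟨m, hm, f, lev, hf, hP⟩ := h
  obtain ⟨i, hi, e⟩ := hP _ hg
  have e1 : f i = g := congrArg Prod.fst e
  let f' : ℕ → SimpleGraph (Fin n) → Prop := fun i => if i < m then f i else fun _ => False
  let lev' : ℕ → ℕ := fun i => if i < m then lev i else 0
  have h1 : ∀ i < m, f' i = f i := fun i hi => if_pos hi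
  have h2 : ∀ i, ¬ i < m → f' i = fun _ => False := fun i hi => if_neg hi
  have g1 : ∀ i < m, lev' i = lev i := fun i hi => if_pos hi
  have g2 : ∀ i, ¬ i < m → lev' i = 0 := fun i hi => if_neg hi
  have hok : ∀ j, OK V b w D f' lev' j := by
    intro j
    by_cases hj : j < m
    · exact ucl_congr (fun t ht => h1 t (by omega)) (fun t ht => g1 t (by omega)) (hf j hj)
    · refine ⟨?_, ?_, ?_⟩
      · rw [h2 j hj]
        exact mono_outside fun _ _ _ h => h
      · rw [g2 j hj]
        exact Nat.zero_le _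
      · right
        refine ⟨∅, ∅, by simp, by simp, Or.inr fun G => ?_⟩
        rw [h2 j hj]
        simp
  refine ⟨f', ⟨fun j => V (lev' j), lev', fun j _ => ?_⟩, i, by omega, by rw [h1 i hi, e1]⟩
  obtain ⟨k1, k2, k3⟩ := hok j
  refine ⟨hV _, k1, k2.trans hD, ?_⟩
  rcases k3 with k3 | ⟨J, K, hJ, hK, k3⟩
  · exact Or.inl k3
  · refine Or.inr ⟨J, K, fun t ht => ⟨(hJ t ht).1, ?_⟩, hK, k3⟩
    have h3 : lev' t ≤ lev' j := (hJ t ht).2
    rcases h3.lt_or_eq with h4 | h4
    · exact Or.inl h4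
    · exact Or.inr ⟨h4, congrArg V h4⟩

end Pool.Agent.H66.OD3
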