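import Pool.Agent.H66.OD3.Blk

/-!
The upper bound.
-/

namespace Pool.Agent.H66.OD3

open Finset

variable {n : ℕ}

/-- The threshold functions used for the slices. -/
theorem thrs {V : ℕ → Finset (Sym2 (Fin n))} {b w D N : ℕ} {P : Set ((SimpleGraph (Fin n) → Prop) × ℕ)} (h : UC V b w D N P)
    (M : ℕ) (hP : ∀ e ∈ nd n, (inp e, 0) ∈ P) (A : Finset (Sym2 (Fin n))) (hA : A ⊆ nd n) :
    UC V b w D (N + A.card * ((M + 1) * (2 * (nd n).card + 1)))
      (P ∪ {p | ∃ e ∈ A, ∃ j ≤ M, p = (τ ((nd n).erase e) j, 0)}) := by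
  classical
  induction A using Finset.induction_on with
  | empty =>
    refine h.mono (by simp) ?_
    rintro p (hp | ⟨e, he, _⟩)
    · exact hp
    · exact absurd he (Finset.notMem_empty e)
  | insert a A ha ih =>
    have h1 := ih fun e he => hA (Finset.mem_insert_of_mem he)
    have h2 := thr h1 M ((nd n).erase a) fun e he => Or.inl (hP e (Finset.mem_of_mem_erase he))
    refine h2.mono ?_ ?_
    · have e1 : (insert a A).card * ((M + 1) * (2 * (nd n).card + 1)) =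
          A.card * ((M + 1) * (2 * (nd n).card + 1)) + (M + 1) * (2 * (nd n).card + 1) := by
        rw [Finset.card_insert_of_notMem ha]
        ring
      rw [e1, ← Nat.add_assoc]
      refine Nat.add_le_add_left (Nat.mul_le_mul_left _ ?_) _
      have : ((nd n).erase a).card ≤ (nd n).card := Finset.card_le_card (Finset.erase_subset _ _)
      omega
    · rintro p (hp | ⟨e, he, j, hj, rfl⟩)
      · exact Or.inl (Or.inl hp)
      · rcases Finset.mem_insert.1 he with rfl | he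
        · exact Or.inr ⟨j, hj, rfl⟩
        · exact Or.inl (Or.inr ⟨e, he, j, hj, rfl⟩)

/-- All slices of a property computed by a circuit. -/
theorem slices {V : ℕ → Finset (Sym2 (Fin n))} {b w D N : ℕ} {P : Set ((SimpleGraph (Fin n) → Prop) × ℕ)} (h : UC V b w D N P)
    (M : ℕ) (hinp : ∀ e ∈ nd n, (inp e, 0) ∈ P) (h0 : ∀ j ≤ M + 1, (τ (nd n) j, 0) ∈ P)
    (he : ∀ e ∈ nd n, ∀ j ≤ M + 1, (τ ((nd n).erase e) j, 0) ∈ P)
    {s : ℕ} {f : ℕ → SimpleGraph (Fin n) → Prop} {Wire : ℕ → ℕ → Prop}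
    (hf : ∀ i < s, Gate 1 Wire f i) {i : ℕ} (hi : i < s) (k : ℕ) (hk : k ≤ M + 1) :
    UC V b w D (N + k * (3 * (nd n).card + 2 * s))
      (P ∪ {p | ∃ j < k, p = (rest (nd n) j (f i), 0)}) := by
  induction k with
  | zero =>
    refine h.mono (by simp) ?_
    rintro p (hp | ⟨j, hj, _⟩)
    · exact hp
    · exact absurd hj (by omega)
  | succ k ih =>
    have h1 := ih (by omega)
    have h2 := slc_lit h1 k (fun e he' => Or.inl (hinp e he')) (Or.inl (h0 k (by omega)))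
      (Or.inl (h0 (k + 1) hk)) (fun e he' => Or.inl (he e he' k (by omega)))
    have h3 := slc h2 k (Or.inl (Or.inl (h0 k (by omega)))) (Or.inl (Or.inl (h0 (k + 1) hk)))
      (fun e he' => ⟨Or.inr ⟨e, he', Or.inl rfl⟩, Or.inr ⟨e, he', Or.inr rfl⟩⟩) hf s (le_refl s)
    refine h3.mono ?_ ?_
    · exact le_of_eq (by ring)
    · rintro p (hp | ⟨j, hj, rfl⟩)
      · exact Or.inl (Or.inl (Or.inl hp))
      · rcases Nat.lt_succ_iff_lt_or_eq.1 hj with hlt | rfl
        · exact Or.inl (Or.inl (Or.inr ⟨j, hlt, rfl⟩))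
        · exact Or.inr ⟨i, hi, Or.inl rfl⟩

/-- **Upper bound.** -/
theorem upper {D W s : ℕ} {f : ℕ → SimpleGraph (Fin n) → Prop}
    (hf : ∀ i < s, Gate 1 (fun _ _ => True) f i) {i : ℕ} (hi : i < s)
    (hg : ∀ G H : SimpleGraph (Fin n), G ≤ H → f i G → f i H) (hDW : n.choose 2 ≤ D * W) :
    ∃ f' : ℕ → SimpleGraph (Fin n) → Prop,
      AlmostMonotone 0 (n.choose 2) W D (12 * (s + 1) * (n.choose 2 + 1) ^ 3) f' ∧
      ∃ i' < 12 * (s + 1) * (n.choose 2 + 1) ^ 3, f' i' = f i := by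
  classical
  set K := n.choose 2 with hK
  have hcard : (nd n).card = K := card_nd n
  rcases Nat.eq_zero_or_pos W with hW0 | hW
  · -- no pairs
    have hK0 : K = 0 := by
      rw [hW0, Nat.mul_zero] at hDW
      omega
    have hbot : ∀ G : SimpleGraph (Fin n), G = ⊥ := by
      intro G
      rw [← SimpleGraph.edgeSet_inj, SimpleGraph.edgeSet_bot, ← Set.ncard_eq_zero (Set.toFinite _)]
      have h1 : G.edgeSet.ncard ≤ K := by
        rw [← cnt_nd]
        exact cnt_le _ _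
      omega
    have hpos : 0 < 12 * (s + 1) * (K + 1) ^ 3 := by positivity
    refine ⟨fun _ => f i, ⟨fun _ => ∅, fun _ => 0, fun j _ => ⟨by simp, ?_, Nat.zero_le _,
      Or.inl ⟨∅, by simp, fun G H _ => ?_⟩⟩⟩, 0, hpos, rfl⟩
    · exact mono_outside hg
    · show f i G ↔ f i H
      rw [hbot G, hbot H]
  -- the number of blocks
  obtain ⟨d, hd1, hd2, hd3⟩ : ∃ d, d ≤ D ∧ d ≤ K ∧ K ≤ d * W := by
    rcases le_total D K with h1 | h1
    · exact ⟨D, le_refl _, h1, hDW⟩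
    · exact ⟨K, h1, le_refl _, Nat.le_mul_of_pos_right _ hW⟩
  obtain ⟨V, A, hA0, hV, hA⟩ := exists_blocks n W
  have h0 : UC V K W d 0 (∅ : Set ((SimpleGraph (Fin n) → Prop) × ℕ)) := UC.empty
  have h1 := inputs hW h0 (nd n)
  have h2 := thr h1 (K + 1) (nd n) fun e he => Or.inr ⟨e, he, rfl⟩
  have h3 := thrs h2 (K + 1) (fun e he => Or.inl (Or.inr ⟨e, he, rfl⟩)) (nd n) (le_refl _)
  have h4 := slices h3 K (fun e he => Or.inl (Or.inl (Or.inr ⟨e, he, rfl⟩)))
    (fun j hj => Or.inl (Or.inr ⟨j, hj, rfl⟩)) (fun e he j hj => Or.inr ⟨e, he, j, hj, rfl⟩)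
    hf hi (K + 1) (le_refl _)
  have h5 := blks hg h4 (le_refl K) (fun j hj => Or.inr ⟨j, by omega, rfl⟩) hA0 hV
    (fun a => ⟨(hA a).1, (hA a).2.1⟩) d (le_refl d)
  have hAd : A d = ∅ := by
    rw [← Finset.card_eq_zero]
    have h6 := (hA d).2.2
    rw [hcard] at h6
    omega
  refine h5.computes hV hd1 ?_ (v := d) (Or.inr ⟨0, Nat.zero_le _, by
    refine Prod.ext ?_ rfl
    funext G
    rw [hAd]
    show f i G = (0 < cnt ∅ G ∨ (cnt ∅ G = 0 ∧ f i G))
    have h7 : cnt (∅ : Finset (Sym2 (Fin n))) G = 0 := by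
      unfold cnt
      simp
    rw [h7]
    simp⟩)
  rw [hcard]
  have h8 : d * ((K + 1) * (K + 3)) ≤ K * ((K + 1) * (K + 3)) := Nat.mul_le_mul_right _ hd2
  refine (Nat.add_le_add_left h8 _).trans ?_
  have h9 : 0 + K + (K + 1 + 1) * (2 * K + 1) + K * ((K + 1 + 1) * (2 * K + 1)) +
      (K + 1) * (3 * K + 2 * s) + K * ((K + 1) * (K + 3)) =
      K + (K + 1) * ((K + 2) * (2 * K + 1) + (3 * K + 2 * s) + K * (K + 3)) := by ring
  rw [h9]
  nlinarith [Nat.zero_le (K * K * K), Nat.zero_le (K * K), Nat.zero_le (s * (K * K * K)),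
    Nat.zero_le (s * (K * K)), Nat.zero_le (s * K), Nat.zero_le s, Nat.zero_le K]

end Pool.Agent.H66.OD3
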